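import Pool.Agent.P.MP_f0defb_al.Defs

namespace Pool.Agent.P.MP_f0defb_al

universe u

/-- A solution is a biquandle if `r (x, y) = (x, y')` forces `y' = y`. -/
def IsBiquandle {Y : Type u} (S : Solution Y) : Prop :=
  ∀ x y y' : Y, S.r (x, y) = (x, y') → y' = y

/-- `(B, S)` with `i : X → B` is a free biquandle on `X`: it is a biquandle, and every map from `X`
to a biquandle extends uniquely through `i` to a morphism of solutions. -/
def IsFreeBiquandle {X B : Type u} (S : Solution B) (i : X → B) : Prop :=
  IsBiquandle S ∧ ∀ (Z : Type u) (T : Solution Z), IsBiquandle T → ∀ φ : X → Z,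
    ∃! f : B → Z, IsMorphism S T f ∧ f ∘ i = φ

end Pool.Agent.P.MP_f0defb_al
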