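import Pool.Agent.P.MP_f0defb_al.Cover
import Pool.Agent.P.MP_f0defb_al.Defs2

/-! The quotient by the kink map, and free biquandles. -/

namespace Pool.Agent.P.MP_f0defb_al

universe u

open Function

variable {X Y Z : Type u} (S : Solution Y)

theorem lam_kink' (y : Y) : S.lam (kink S y) = S.lam y := by
  obtain ⟨x, rfl⟩ := S.dg_surjective y
  rw [kink_eq S (S.lam_dg x), S.lam_kink (S.lam_dg x)]

theorem rho_kink (y : Y) : S.rho (kink S y) = S.rho y := by
  obtain ⟨x, rfl⟩ := S.dg_surjective y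
  refine Equiv.ext fun a => ?_
  obtain ⟨a, rfl⟩ := (S.rho x).surjective a
  rw [kink_eq S (S.lam_dg x), (S.yb a x (S.dg x)).2.2, S.lam_dg]

theorem inv_zpow_of {β : Type u} {κ : Equiv.Perm Y} {f : Y → β} (h : ∀ y, f (κ y) = f y) (y : Y)
    (n : ℤ) : f ((κ ^ n) y) = f y := by
  induction n using Int.induction_on with
  | zero => simp
  | succ n ih => rw [add_comm, zpow_add, zpow_one, Equiv.Perm.mul_apply, h, ih]
  | pred n ih =>
    rw [sub_eq_neg_add, zpow_add, zpow_neg_one, Equiv.Perm.mul_apply, ← h, Solution.ap_inv, ih]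

theorem comm_lam (a : Y) : Commute (S.lam a) (kink S) := Equiv.ext fun y => S.lam_sig a y y

theorem comm_rho (b : Y) : Commute (S.rho b) (kink S) := Equiv.ext fun a => by
  have h1 := S.sig_lam a b
  have h2 := S.sig_lam (kink S a) b
  rw [lam_kink'] at h2
  apply (S.lam (S.lam a b)).injective
  rw [Equiv.Perm.mul_apply, ← h2, Equiv.Perm.mul_apply]
  change S.sig _ (S.sig a a) = S.lam _ (S.sig _ _)
  rw [S.sig_sig, S.lam_sig, h1]

/-- the orbits of the kink map -/
noncomputable def orbs : Setoid Y := Equiv.Perm.SameCycle.setoid (kink S)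

theorem orbs_map {f : Equiv.Perm Y} (h : Commute f (kink S)) {y y' : Y} (k : orbs S y y') :
    orbs S (f y) (f y') := by
  obtain ⟨n, rfl⟩ := k
  exact ⟨n, (Equiv.congr_fun (h.zpow_right n).eq y).symm⟩

theorem orbs_r {x x' y y' : Y} (h : orbs S x x') (k : orbs S y y') :
    orbs S (S.lam x y) (S.lam x' y') ∧ orbs S (S.rho y x) (S.rho y' x') := by
  have h1 := orbs_map S (comm_lam S x) k
  have h2 := orbs_map S (comm_rho S y) h
  obtain ⟨n, rfl⟩ := h
  obtain ⟨m, rfl⟩ := k
  rwa [inv_zpow_of (lam_kink' S), inv_zpow_of (rho_kink S), and_iff_right h1]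

theorem bij_map {f : Equiv.Perm Y} (h : Commute f (kink S)) :
    Bijective (Quotient.map' (s₁ := orbs S) (s₂ := orbs S) f fun _ _ => orbs_map S h) :=
  bijective_iff_has_inverse.2 ⟨Quotient.map' ⇑f⁻¹ fun _ _ => orbs_map S h.inv_left,
    fun y => Quotient.inductionOn' y fun y => by simp, fun y => Quotient.inductionOn' y fun y => by simp⟩

/-- the induced biquandle -/
noncomputable def quo : Solution (Quotient (orbs S)) where
  r q := (Quotient.map₂' (fun x y => S.lam x y) (fun _ _ h _ _ k => (orbs_r S h k).1) q.1 q.2,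
    Quotient.map₂' (fun x y => S.rho y x) (fun _ _ h _ _ k => (orbs_r S h k).2) q.1 q.2)
  braid := by
    funext t
    obtain ⟨⟨x⟩, ⟨y⟩, ⟨z⟩⟩ := t
    obtain ⟨h1, h2, h3⟩ := S.yb x y z
    exact Prod.ext (congrArg Quotient.mk'' h1)
      (Prod.ext (congrArg Quotient.mk'' h2) (congrArg Quotient.mk'' h3))
  lam_bijective := by
    rintro ⟨x⟩
    convert bij_map S (comm_lam S x) using 1
    funext y
    obtain ⟨y⟩ := y
    rfl
  rho_bijective := by
    rintro ⟨y⟩
    convert bij_map S (comm_rho S y) using 1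
    funext x
    obtain ⟨x⟩ := x
    rfl

theorem quo_morphism : IsMorphism S (quo S) Quotient.mk'' := rfl

variable {S} {T : Solution Z}

theorem IsMorphism.map_kink {f : Y → Z} (h : IsMorphism S T f) (y : Y) :
    f (kink S y) = kink T (f y) := by
  obtain ⟨x, e⟩ := (kink_iff S y _).1 rfl
  have := h.map_r x y
  rw [e] at this
  exact ((kink_iff T _ _).2 ⟨_, this⟩).symm

theorem isBiquandle_iff : IsBiquandle S ↔ ∀ y, kink S y = y :=
  ⟨fun h y => let ⟨x, e⟩ := (kink_iff S y _).1 rfl; h x y _ e,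
    fun h x y _ e => ((kink_iff S _ _).2 ⟨x, e⟩).symm.trans (h y)⟩

theorem quo_free {i : X → Y} (h : IsFree S i) : IsFreeBiquandle (quo S) (Quotient.mk'' ∘ i) := by
  refine ⟨isBiquandle_iff.2 ?_, fun Z T hT φ => ?_⟩
  · rintro ⟨y⟩
    exact ((quo_morphism S).map_kink y).symm.trans (Quotient.sound' ⟨-1, by simp⟩)
  obtain ⟨f, ⟨h1, h2⟩, h3⟩ := h Z T φ
  have k : ∀ y y', orbs S y y' → f y = f y' := by
    rintro y _ ⟨n, rfl⟩
    exact (inv_zpow_of (fun y => (h1.map_kink y).trans (isBiquandle_iff.1 hT _)) y n).symm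
  refine ⟨fun q => Quotient.liftOn' q f k, ⟨?_, h2⟩, ?_⟩
  · funext q
    obtain ⟨⟨x⟩, ⟨y⟩⟩ := q
    exact congrFun h1 (x, y)
  · rintro f' ⟨k1, k2⟩
    funext q
    obtain ⟨y⟩ := q
    exact congrFun (h3 (f' ∘ Quotient.mk'')
      ⟨funext fun q => congrFun k1 (Quotient.mk'' q.1, Quotient.mk'' q.2), k2⟩) y

theorem can_eq {G : Type u} [Group G] {f : Y → G}
    (h : ∀ x y, f x * f y = f (S.r (x, y)).1 * f (S.r (x, y)).2) {y y' : Y}
    (e : canonicalMap S y = canonicalMap S y') : f y = f y' := by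
  have k : ∀ r ∈ relators S, FreeGroup.lift f r = 1 := by
    rintro _ ⟨x, y, rfl⟩
    simp only [map_mul, map_inv, FreeGroup.lift_apply_of, mul_inv_eq_one, h x y]
  simpa [canonicalMap] using congrArg (PresentedGroup.toGroup k) e

theorem biq_injective {j : X → Z} (h : IsFreeBiquandle T j) : Injective (canonicalMap T) := by
  obtain ⟨i, hF⟩ : ∃ i : X → _, IsFree (freeSol X) i := ⟨_, freeSol_isFree X⟩
  have hQ := quo_free hF
  obtain ⟨f, ⟨f1, f2⟩, -⟩ := h.2 _ _ hQ.1 (Quotient.mk'' ∘ i)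
  obtain ⟨g, ⟨g1, g2⟩, -⟩ := hQ.2 _ _ h.1 j
  have k : g ∘ f = id := by
    refine (h.2 Z T h.1 j).unique ⟨?_, by rw [comp_assoc, f2, g2]⟩ ⟨rfl, rfl⟩
    funext q
    have e := g1.map_r (f q.1) (f q.2)
    rw [f1.map_r] at e
    exact e.symm
  have w : ∀ y y', orbs (freeSol X) y y' → canonicalMap _ y = canonicalMap _ y' :=
    fun y y' => (fibres hF y y').2
  intro y y' e
  have e1 := can_eq (f := fun z => Quotient.liftOn' (f z) (canonicalMap (freeSol X)) w)
    (fun a b => by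
      have t := f1.map_r a b
      obtain ⟨x, hx⟩ := Quotient.exists_rep (f a)
      obtain ⟨y, hy⟩ := Quotient.exists_rep (f b)
      obtain ⟨t1, t2⟩ := Prod.ext_iff.1 t
      dsimp only at t1 t2
      rw [← t1, ← t2, ← hx, ← hy]
      exact canonicalMap_rel _ x y) e
  refine LeftInverse.injective (f := f) (g := g) (congrFun k) ?_
  obtain ⟨x, hx⟩ := Quotient.exists_rep (f y)
  obtain ⟨x', hx'⟩ := Quotient.exists_rep (f y')
  rw [← hx, ← hx'] at e1 ⊢
  exact Quotient.sound ((fibres hF x x').1 e1)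

end Pool.Agent.P.MP_f0defb_al
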