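import Pool.Agent.P.MP_f0defb_al.Rack

/-! The cover of a solution by a free rack, and the fibres of the canonical map. -/

namespace Pool.Agent.P.MP_f0defb_al

universe u

open Function

namespace Cover

variable {X F : Type u} {S : Solution F} (i : X → F)

/-- the free rack on the letters `G × X` -/
abbrev M (S : Solution F) (X : Type u) : Type u :=
  (StructureGroup S × X) × FreeGroup (StructureGroup S × X)

/-- translation of letters -/
def mv (γ : StructureGroup S) : FreeGroup (StructureGroup S × X) →* FreeGroup (StructureGroup S × X) :=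
  FreeGroup.map fun t => (γ * t.1, t.2)

theorem mv_mv (γ δ : StructureGroup S) (w : FreeGroup (StructureGroup S × X)) :
    mv γ (mv δ w) = mv (γ * δ) w := by
  simp [mv, FreeGroup.map.comp, comp_def, mul_assoc]

theorem mv_one (w : FreeGroup (StructureGroup S × X)) : mv 1 w = w := by simp [mv]

/-- words act through the derived rack -/
noncomputable def tau : FreeGroup (StructureGroup S × X) →* Equiv.Perm F :=
  FreeGroup.lift fun t => S.sig (act S t.1 (i t.2))

theorem tau_sig (w : FreeGroup (StructureGroup S × X)) (z x : F) :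
    tau i w (S.sig z x) = S.sig (tau i w z) (tau i w x) := by
  induction w using FreeGroup.induction_on generalizing z x with
  | C1 => simp
  | of t => simpa [tau] using S.sig_sig _ z x
  | inv_of t h =>
    rw [map_inv, Equiv.Perm.inv_eq_iff_eq, h]
    simp
  | mul a b ha hb => simp [ha, hb]

theorem tau_mv (γ : StructureGroup S) (w : FreeGroup (StructureGroup S × X)) (x : F) :
    tau i (mv γ w) (act S γ x) = act S γ (tau i w x) := by
  induction w using FreeGroup.induction_on generalizing x with
  | C1 => simp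
  | of t => simp [tau, mv, act_sig]
  | inv_of t h =>
    rw [map_inv, map_inv, map_inv, Equiv.Perm.inv_eq_iff_eq, h]
    simp
  | mul a b ha hb => simp [ha, hb]

/-- the projection to `F` -/
noncomputable def pj (a : M S X) : F := tau i a.2 (act S a.1.1 (i a.1.2))

/-- the conjugate of a letter -/
def cj (a : M S X) : FreeGroup (StructureGroup S × X) := a.2 * FreeGroup.of a.1 * a.2⁻¹

/-- the action of the structure group -/
def L (γ : StructureGroup S) (a : M S X) : M S X := ((γ * a.1.1, a.1.2), mv γ a.2)

/-- the rack operation -/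
def tri (a b : M S X) : M S X := (a.1, cj b * a.2)

theorem L_L (γ δ : StructureGroup S) (a : M S X) : L γ (L δ a) = L (γ * δ) a := by
  simp [L, mv_mv, mul_assoc]

theorem L_one (a : M S X) : L 1 a = a := by simp [L, mv_one]

theorem L_inv (γ : StructureGroup S) (a : M S X) : L γ (L γ⁻¹ a) = a := by
  rw [L_L, mul_inv_cancel, L_one]

theorem inv_L (γ : StructureGroup S) (a : M S X) : L γ⁻¹ (L γ a) = a := by
  rw [L_L, inv_mul_cancel, L_one]

theorem cj_L (γ : StructureGroup S) (a : M S X) : cj (L γ a) = mv γ (cj a) := by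
  simp [cj, L, mv]

theorem cj_tri (a b : M S X) : cj (tri a b) = cj b * cj a * (cj b)⁻¹ := by
  simp only [cj, tri]
  group

theorem L_tri (γ : StructureGroup S) (a b : M S X) : L γ (tri a b) = tri (L γ a) (L γ b) := by
  rw [tri, tri, cj_L]
  simp [L]

theorem tri_tri (a b c : M S X) : tri (tri a b) c = tri (tri a c) (tri b c) := by
  rw [tri, tri, tri, cj_tri]
  simp [tri, mul_assoc]

theorem pj_L (γ : StructureGroup S) (a : M S X) : pj i (L γ a) = act S γ (pj i a) := by
  simp [pj, L, tau_mv]

theorem tau_cj (b : M S X) : tau i (cj b) = S.sig (pj i b) := Equiv.ext fun x => by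
  have := tau_sig i b.2 (act S b.1.1 (i b.1.2)) ((tau i b.2)⁻¹ x)
  rw [Solution.ap_inv] at this
  rw [pj, ← this]
  simp [cj, tau]

theorem pj_tri (a b : M S X) : pj i (tri a b) = S.sig (pj i b) (pj i a) := by
  rw [← tau_cj]
  simp [tri, pj]

/-- the image in the structure group -/
noncomputable def p (a : M S X) : StructureGroup S := canonicalMap S (pj i a)

/-- the braiding on the cover -/
noncomputable def R (q : M S X × M S X) : M S X × M S X :=
  (L (p i q.1) q.2, L (p i (L (p i q.1) q.2))⁻¹ (tri q.1 (L (p i q.1) q.2)))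

theorem pj_R1 (a b : M S X) : pj i (R i (a, b)).1 = S.lam (pj i a) (pj i b) := by
  simp [R, pj_L, p, act_of]

theorem pj_R2 (a b : M S X) : pj i (R i (a, b)).2 = S.rho (pj i b) (pj i a) := by
  simp [R, pj_L, p, act_of, pj_tri, S.sig_lam]

theorem p_R (a b : M S X) : p i (R i (a, b)).1 * p i (R i (a, b)).2 = p i a * p i b := by
  rw [p, p, pj_R1, pj_R2]
  exact (canonicalMap_rel S _ _).symm

/-- coordinates in which the braiding is the braiding of the rack -/
noncomputable def J (t : M S X × M S X × M S X) : M S X × M S X × M S X :=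
  (t.1, L (p i t.1) t.2.1, L (p i t.1 * p i t.2.1) t.2.2)

theorem J_injective : Injective (J (S := S) i) := by
  rintro ⟨a, b, c⟩ ⟨a', b', c'⟩ h
  simp only [J, Prod.mk.injEq] at h
  obtain ⟨rfl, h1, h2⟩ := h
  obtain rfl : b = b' := by rw [← inv_L (p i a) b, h1, inv_L]
  rw [← inv_L (p i a * p i b) c, h2, inv_L]

theorem J12 (t : M S X × M S X × M S X) :
    J i (r12 (R i) t) = ((J i t).2.1, tri (J i t).1 (J i t).2.1, (J i t).2.2) := by
  simp only [J, r12, p_R]
  simp only [R, L_inv]

theorem J23 (t : M S X × M S X × M S X) :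
    J i (r23 (R i) t) = ((J i t).1, (J i t).2.2, tri (J i t).2.1 (J i t).2.2) := by
  simp only [J, r23, R, ← L_L, L_inv, L_tri]

/-- the cover is a solution -/
noncomputable def sol : Solution (M S X) where
  r := R i
  braid := by
    funext t
    apply J_injective i
    simp only [comp, J12, J23]
    rw [tri_tri]
  lam_bijective a := bijective_iff_has_inverse.2 ⟨L (p i a)⁻¹, inv_L _, L_inv _⟩
  rho_bijective b := by
    refine ⟨fun a a' h => ?_, fun c => ?_⟩
    · have e : p i a = p i a' := by
        have := congrArg (pj i) h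
        simp only [pj_R2] at this
        rw [p, p, (S.rho _).injective this]
      simp only [R, e] at h
      have := congrArg (L (p i (L (p i a') b))) h
      simp only [L_inv, tri, Prod.mk.injEq, mul_right_inj] at this
      exact Prod.ext this.1 this.2
    · obtain ⟨x, hx⟩ := (S.rho (pj i b)).surjective (pj i c)
      obtain ⟨b', hb⟩ : ∃ b', b' = L (canonicalMap S x) b := ⟨_, rfl⟩
      obtain ⟨a, ha⟩ : ∃ a, tri a b' = L (p i b') c :=
        ⟨((L (p i b') c).1, (cj b')⁻¹ * (L (p i b') c).2), by simp [tri]⟩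
      have e : pj i a = x := by
        have := congrArg (pj i) ha
        rw [pj_tri, pj_L, p, act_of, hb, pj_L, act_of, ← hx, ← S.sig_lam] at this
        exact (S.sig _).injective this
      refine ⟨a, ?_⟩
      simp only [R]
      rw [p.eq_1 i a, e, ← hb, ha, inv_L]

theorem pj_morphism : IsMorphism (sol (S := S) i) S (pj i) := by
  funext q
  exact Prod.ext (pj_R1 i q.1 q.2) (pj_R2 i q.1 q.2)

/-- the translation action by automorphisms -/
def mvA : StructureGroup S →* MulAut (FreeGroup (StructureGroup S × X)) where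
  toFun γ :=
    { mv γ with
      invFun := mv γ⁻¹
      left_inv := fun w => by simp [mv_mv, mv_one]
      right_inv := fun w => by simp [mv_mv, mv_one] }
  map_one' := MulEquiv.ext mv_one
  map_mul' γ δ := MulEquiv.ext fun w => (mv_mv γ δ w).symm

/-- along a section, the conjugate of the letter only depends on the image in the group -/
theorem cj_eq {s : F → M S X} (h1 : IsMorphism S (sol i) s) (h2 : ∀ y, pj i (s y) = y) {y y' : F}
    (h : canonicalMap S y = canonicalMap S y') : cj (s y) = cj (s y') := by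
  have k : ∀ r ∈ relators S, FreeGroup.lift (fun y => (⟨(cj (s y))⁻¹, canonicalMap S y⟩ :
      FreeGroup (StructureGroup S × X) ⋊[mvA] StructureGroup S)) r = 1 := by
    rintro _ ⟨x, y, rfl⟩
    simp only [map_mul, map_inv, FreeGroup.lift_apply_of, mul_inv_eq_one]
    refine SemidirectProduct.ext ?_ (canonicalMap_rel S x y)
    have e := h1.map_r x y
    have e1 : L (p i (s x)) (s y) = s (S.r (x, y)).1 := congrArg Prod.fst e
    have e2 : L (p i (L (p i (s x)) (s y)))⁻¹ (tri (s x) (L (p i (s x)) (s y))) =
        s (S.r (x, y)).2 := congrArg Prod.snd e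
    rw [e1] at e2
    have e3 := congrArg cj e1
    have e4 := congrArg (fun a => cj (L (p i (s (S.r (x, y)).1)) a)) e2
    simp only [L_inv, cj_L, cj_tri, p, h2] at e3 e4
    change _ * mv _ _ = _ * mv _ _
    rw [map_inv, map_inv, e3, ← e4]
    group
  have := congrArg (fun g => (PresentedGroup.toGroup k g).left) h
  simpa [canonicalMap] using this

theorem cj_inj {a b : M S X} (h : cj a = cj b) :
    ∃ n : ℤ, b = (a.1, cj a ^ n * a.2) := by
  classical
  obtain ⟨t, w⟩ := a
  obtain ⟨t', w'⟩ := b
  simp only [cj] at h ⊢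
  obtain rfl : t = t' := by
    have := congrArg (FreeGroup.lift fun x => Multiplicative.ofAdd (if x = t then (1 : ℤ) else 0)) h
    simp only [map_mul, map_inv, FreeGroup.lift_apply_of, mul_inv_cancel_comm] at this
    by_contra n
    simp [Ne.symm n] at this
  obtain ⟨n, hn⟩ := mem_zpowers_of_comm t (w⁻¹ * w') (by
    rw [← mul_left_inj w'⁻¹, mul_assoc w⁻¹, mul_assoc w⁻¹, ← h]
    group)
  exact ⟨n, by rw [conj_zpow, ← hn]; simp⟩

end Cover

/-- powers of `σ_y` and of the kink map agree on `y` -/
theorem sig_kink {Y : Type u} (S : Solution Y) (y : Y) : S.sig (S.sig y y) = S.sig y :=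
  Equiv.ext fun x => by
    obtain ⟨z, rfl⟩ := (S.sig y).surjective x
    exact (S.sig_sig y y z).symm

/-- the kink map -/
noncomputable def kink {Y : Type u} (S : Solution Y) : Equiv.Perm Y where
  toFun y := S.sig y y
  invFun y := (S.sig y)⁻¹ y
  left_inv y := by simp [sig_kink]
  right_inv y := by
    have k : S.sig ((S.sig y)⁻¹ y) = S.sig y := Equiv.ext fun x => by
      apply (S.sig y).injective
      rw [S.sig_sig, Solution.ap_inv]
    change S.sig _ _ = y
    rw [k, Solution.ap_inv]

theorem sig_kink_zpow {Y : Type u} (S : Solution Y) (y : Y) (n : ℤ) :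
    S.sig ((kink S ^ n) y) = S.sig y ∧ (kink S ^ n) y = (S.sig y ^ n) y := by
  induction n using Int.induction_on with
  | zero => simp
  | succ n ih =>
    rw [add_comm, zpow_add, zpow_add, zpow_one, zpow_one, Equiv.Perm.mul_apply,
      Equiv.Perm.mul_apply, ← ih.2, ← ih.1]
    exact ⟨sig_kink S _, rfl⟩
  | pred n ih =>
    rw [sub_eq_neg_add, zpow_add, zpow_add, zpow_neg_one, zpow_neg_one, Equiv.Perm.mul_apply,
      Equiv.Perm.mul_apply, ← ih.2, ← ih.1]
    refine ⟨?_, rfl⟩
    rw [← sig_kink S ((kink S)⁻¹ _)]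
    exact congrArg S.sig (Solution.ap_inv (kink S) _)

theorem kink_eq {Y : Type u} (S : Solution Y) {x y : Y} (h : S.lam x y = x) :
    kink S y = S.rho y x := by
  apply (S.lam x).injective
  have := S.sig_lam x y
  rw [h] at this
  rw [← this]
  change S.lam x (S.sig y y) = _
  rw [S.lam_sig, h]

theorem kink_iff {Y : Type u} (S : Solution Y) (y y' : Y) :
    kink S y = y' ↔ ∃ x, S.r (x, y) = (x, y') := by
  refine ⟨?_, fun ⟨x, h⟩ => (kink_eq S (x := x) (congrArg Prod.fst h :)).trans
    (congrArg Prod.snd h :)⟩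
  rintro rfl
  obtain ⟨x, rfl⟩ := S.dg_surjective y
  exact ⟨x, Prod.ext (S.lam_dg x) (kink_eq S (S.lam_dg x)).symm⟩

theorem can_kink {Y : Type u} (S : Solution Y) (y : Y) (n : ℤ) :
    canonicalMap S ((kink S ^ n) y) = canonicalMap S y := by
  have k : ∀ y, canonicalMap S (kink S y) = canonicalMap S y := fun y => by
    obtain ⟨x, h⟩ := (kink_iff S y _).1 rfl
    have := canonicalMap_rel S x y
    rw [h] at this
    exact (mul_left_cancel this).symm
  induction n using Int.induction_on with
  | zero => simp
  | succ n ih => rw [add_comm, zpow_add, zpow_one, Equiv.Perm.mul_apply, k, ih]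
  | pred n ih =>
    rw [sub_eq_neg_add, zpow_add, zpow_neg_one, Equiv.Perm.mul_apply, ← k, Solution.ap_inv, ih]

/-- the permutation solution `r (a, b) = (b, a + 1)` on the integers -/
def shiftSol : Solution (ULift.{u} ℤ) where
  r p := (p.2, ⟨p.1.down + 1⟩)
  braid := by
    funext t
    rfl
  lam_bijective _ := bijective_id
  rho_bijective _ := by
    refine bijective_iff_has_inverse.2 ⟨fun x => ⟨x.down - 1⟩, fun x => ?_, fun x => ?_⟩ <;> simp

theorem kink_free {X F : Type u} {S : Solution F} {i : X → F} (h : IsFree S i) (y : F) (n : ℤ)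
    (e : (kink S ^ n) y = y) : n = 0 := by
  obtain ⟨f, ⟨hf, -⟩, -⟩ := h (ULift.{u} ℤ) shiftSol fun _ => ⟨0⟩
  have k : ∀ y, (f (kink S y)).down = (f y).down + 1 := fun y => by
    obtain ⟨x, h⟩ := (kink_iff S y _).1 rfl
    have := hf.map_r x y
    rw [h] at this
    have e1 : f y = f x := congrArg Prod.fst this
    have e2 : (⟨(f x).down + 1⟩ : ULift.{u} ℤ) = f (kink S y) := congrArg Prod.snd this
    rw [← e2, e1]
  have k' : ∀ n : ℤ, (f ((kink S ^ n) y)).down = (f y).down + n := fun n => by
    induction n using Int.induction_on with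
    | zero => simp
    | succ n ih => rw [add_comm (n : ℤ), zpow_add, zpow_one, Equiv.Perm.mul_apply, k, ih]; ring
    | pred n ih =>
      have := k ((kink S ^ (-(n : ℤ) - 1)) y)
      rw [sub_eq_neg_add, zpow_add, zpow_neg_one, Equiv.Perm.mul_apply] at this ⊢
      rw [Solution.ap_inv, ih] at this
      omega
  have := k' n
  rw [e] at this
  omega

open Cover in
theorem fibres {X F : Type u} {S : Solution F} {i : X → F} (h : IsFree S i) (y y' : F) :
    canonicalMap S y = canonicalMap S y' ↔ ∃ n : ℤ, (kink S ^ n) y = y' := by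
  refine ⟨fun e => ?_, by rintro ⟨n, rfl⟩; exact (can_kink S y n).symm⟩
  obtain ⟨s, ⟨h1, h2⟩, -⟩ := h (M S X) (sol i) fun x => ((1, x), 1)
  have h3 : ∀ y, pj i (s y) = y := by
    refine congrFun ((h F S i).unique (y₁ := pj i ∘ s) (y₂ := id) ⟨?_, ?_⟩ ⟨rfl, rfl⟩)
    · funext q
      have e1 := (pj_morphism i).map_r (s q.1) (s q.2)
      rw [h1.map_r] at e1
      exact e1.symm
    · funext x
      have : s (i x) = ((1, x), 1) := congrFun h2 x
      simp [this, pj]
  obtain ⟨n, hn⟩ := cj_inj (cj_eq i h1 h3 e)
  refine ⟨n, ?_⟩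
  have k := h3 y
  rw [(sig_kink_zpow S y n).2, ← h3 y', hn, pj, map_mul, map_zpow, tau_cj, k]
  exact congrArg _ k.symm

end Pool.Agent.P.MP_f0defb_al
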