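import Mathlib

namespace Pool.Agent.P.MP_f0defb_al

universe u

/-- `r₁₂ = r × id` on `Y³`. -/
def r12 {Y : Type u} (r : Y × Y → Y × Y) (t : Y × Y × Y) : Y × Y × Y :=
  ((r (t.1, t.2.1)).1, (r (t.1, t.2.1)).2, t.2.2)

/-- `r₂₃ = id × r` on `Y³`. -/
def r23 {Y : Type u} (r : Y × Y → Y × Y) (t : Y × Y × Y) : Y × Y × Y :=
  (t.1, r t.2)

/-- A non-degenerate set-theoretic solution of the Yang-Baxter equation on the set `Y`:
a map `r (x, y) = (λ_x y, ρ_y x)` satisfying the braid relation, with every `λ_x` and every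
`ρ_y` bijective. -/
structure Solution (Y : Type u) where
  /-- the map `r : Y × Y → Y × Y` -/
  r : Y × Y → Y × Y
  braid : r12 r ∘ r23 r ∘ r12 r = r23 r ∘ r12 r ∘ r23 r
  lam_bijective : ∀ x : Y, Function.Bijective fun y : Y => (r (x, y)).1
  rho_bijective : ∀ y : Y, Function.Bijective fun x : Y => (r (x, y)).2

/-- `f : (Y, r) → (Z, s)` is a morphism of solutions: `(f × f) ∘ r = s ∘ (f × f)`. -/
def IsMorphism {Y Z : Type u} (S : Solution Y) (T : Solution Z) (f : Y → Z) : Prop :=
  Prod.map f f ∘ S.r = T.r ∘ Prod.map f f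

/-- `(F, S)` with `i : X → F` is a free solution on `X`: every map from `X` to a solution
extends uniquely through `i` to a morphism of solutions. -/
def IsFree {X F : Type u} (S : Solution F) (i : X → F) : Prop :=
  ∀ (Z : Type u) (T : Solution Z) (φ : X → Z), ∃! f : F → Z, IsMorphism S T f ∧ f ∘ i = φ

/-- The relators `x y (λ_x y · ρ_y x)⁻¹` of the structure group. -/
def relators {Y : Type u} (S : Solution Y) : Set (FreeGroup Y) :=
  {w | ∃ x y : Y, w = FreeGroup.of x * FreeGroup.of y *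
    (FreeGroup.of (S.r (x, y)).1 * FreeGroup.of (S.r (x, y)).2)⁻¹}

/-- The structure group `G(Y, r) = ⟨Y | x ∘ y = λ_x y ∘ ρ_y x⟩`. -/
abbrev StructureGroup {Y : Type u} (S : Solution Y) : Type u :=
  PresentedGroup (relators S)

/-- The canonical map `g_Y : Y → G(Y, r)`. -/
def canonicalMap {Y : Type u} (S : Solution Y) (y : Y) : StructureGroup S :=
  PresentedGroup.of y

end Pool.Agent.P.MP_f0defb_al
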