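import Pool.Agent.P.MP_f0defb_al.Defs

namespace Pool.Agent.P.MP_f0defb_al

universe u

/-- `Ret S n x y`: the points `x` and `y` have the same image in the `n`-th iterated retraction of
the solution `S`, where the retraction identifies `x` and `y` if `λ_x = λ_y` and `ρ_x = ρ_y`. -/
def Ret {Y : Type u} (S : Solution Y) : ℕ → Y → Y → Prop
  | 0, x, y => x = y
  | n + 1, x, y => ∀ z, Ret S n (S.r (x, z)).1 (S.r (y, z)).1 ∧ Ret S n (S.r (z, x)).2 (S.r (z, y)).2

/-- A solution is multipermutation if some iterated retraction has at most one point. -/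
def IsMultiperm {Y : Type u} (S : Solution Y) : Prop := ∃ n, ∀ x y, Ret S n x y

end Pool.Agent.P.MP_f0defb_al
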