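import Pool.Agent.P.MP_f0defb_al.Defs

namespace Pool.Agent.P.MP_f0defb_al

universe u

/-- A solution is indecomposable if the only subsets that are invariant under all `λ_x`, all `ρ_y`
and their inverses are the empty set and the whole set. -/
def IsIndec {Y : Type u} (S : Solution Y) : Prop :=
  ∀ A : Set Y, (∀ x y, (S.r (x, y)).1 ∈ A ↔ y ∈ A) → (∀ x y, (S.r (x, y)).2 ∈ A ↔ x ∈ A) →
    A = ∅ ∨ A = Set.univ

end Pool.Agent.P.MP_f0defb_al
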