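import Mathlib

/-! Free groups are fully residually finite `p`-groups. -/

namespace Pool.Agent.P.MP_f0defb_al

universe u

open FreeGroup (of lift mk IsReduced)

section

variable {S P : Type u} {C : Type} [Group P] [CommGroup C] (f : FreeGroup S →* P) (c : C)

open Classical in
/-- counting the edges of the Cayley graph along a word -/
noncomputable def fox : FreeGroup S →* (S × Bool → C) ≀ᵣ P :=
  lift fun s => ⟨fun v y => if v = 1 ∧ y = (s, true) then c else
    if v = f (of s) ∧ y = (s, false) then c⁻¹ else 1, f (of s)⟩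

theorem fox_right (w : FreeGroup S) : (fox f c w).right = f w :=
  DFunLike.congr_fun (f := RegularWreathProduct.rightHom.comp (fox f c))
    (FreeGroup.ext_hom _ _ fun s => by simp [fox]) w

theorem mk_neg (s : S) : mk [(s, false)] = (of s)⁻¹ := rfl

theorem fox_one {x y : S × Bool} {v : P} (h1 : f (mk [x]) ≠ v) (h2 : v = 1 → x ≠ y) :
    (fox f c (mk [x])).left v y = 1 := by
  obtain ⟨s, _ | _⟩ := x
  · rw [mk_neg, map_inv] at h1 ⊢
    simp only [fox, FreeGroup.lift_apply_of, RegularWreathProduct.inv_left, Pi.inv_apply]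
    rw [if_neg fun h => h1 (inv_eq_of_mul_eq_one_right h.1),
      if_neg fun h => h2 (mul_eq_left.1 h.1) h.2.symm, inv_one]
  · change (fox f c (of s)).left v y = 1
    simp only [fox, FreeGroup.lift_apply_of]
    rw [if_neg fun h => h2 h.1 h.2.symm, if_neg fun h => h1 h.1.symm]

theorem fox_ne (hc : c ≠ 1) (x : S × Bool) :
    (fox f c (mk [x])).left (f (mk [x])) (x.1, !x.2) ≠ 1 := by
  obtain ⟨s, _ | _⟩ := x
  · simpa [mk_neg, fox] using hc
  · change (fox f c (of s)).left (f (of s)) _ ≠ 1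
    simpa [fox] using hc

theorem fox_cons (x y : S × Bool) (L : List (S × Bool)) (v : P) :
    (fox f c (mk (x :: L))).left v y =
      (fox f c (mk [x])).left v y * (fox f c (mk L)).left ((f (mk [x]))⁻¹ * v) y := by
  rw [← List.singleton_append, ← FreeGroup.mul_mk, map_mul, ← fox_right f c]
  rfl

theorem fox_zero (y : S × Bool) (L : List (S × Bool)) : ∀ v : P,
    (∀ L1 L2, L = L1 ++ L2 → L1 ≠ [] → f (mk L1) ≠ v) → (v = 1 → L.head? ≠ some y) →
      (fox f c (mk L)).left v y = 1 := by
  induction L with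
  | nil => exact fun v _ _ => by rw [← FreeGroup.one_eq_mk, map_one]; rfl
  | cons x L ih =>
    intro v h1 h2
    have h3 := h1 [x] L rfl (List.cons_ne_nil _ _)
    rw [fox_cons, fox_one f c h3 fun e e' => h2 e (congrArg some e'), one_mul]
    refine ih _ (fun L1 L2 e _ e' => h1 (x :: L1) L2 (congrArg _ e) (List.cons_ne_nil _ _) ?_)
      fun e => absurd (inv_mul_eq_one.1 e) h3
    rw [← List.singleton_append, ← FreeGroup.mul_mk, map_mul, e', mul_inv_cancel_left]

/-- short reduced words survive -/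
def Surv (f : FreeGroup S →* P) (n : ℕ) : Prop :=
  ∀ L, IsReduced L → L ≠ [] → L.length ≤ n → f (mk L) ≠ 1

theorem Surv.step {f : FreeGroup S →* P} {n : ℕ} (h : Surv f n) (hc : c ≠ 1) :
    Surv (fox f c) (n + 1) := by
  rintro (_ | ⟨x, L⟩) h1 h2 h3 e
  · exact h2 rfl
  have k := fox_cons f c x (x.1, !x.2) L (f (mk [x]))
  rw [e, inv_mul_cancel, fox_zero f c _ L, mul_one] at k
  · exact fox_ne f c hc x k.symm
  · rintro L1 L2 rfl h4
    exact h L1 (List.IsChain.left_of_append (List.IsChain.tail h1)) h4 (by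
      simp only [List.length_cons, List.length_append] at h3
      omega)
  · rintro - h4
    obtain ⟨L, rfl⟩ := List.head?_eq_some_iff.1 h4
    simpa using (List.isChain_cons_cons.1 h1).1 rfl

end

variable (p : ℕ) [Fact p.Prime] {S : Type u} [Finite S]

theorem exists_surv (n : ℕ) : ∃ (P : Type u) (_ : Group P) (k : ℕ) (f : FreeGroup S →* P),
    Nat.card P = p ^ k ∧ Surv f n := by
  induction n with
  | zero => exact ⟨PUnit, inferInstance, 0, 1, by simp, fun L _ h1 h2 => by simp_all⟩
  | succ n ih =>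
    obtain ⟨P, _, k, f, h1, h2⟩ := ih
    have : Finite P := Nat.finite_of_card_ne_zero (h1 ▸ pow_ne_zero _ (NeZero.ne p))
    refine ⟨_, inferInstance, Nat.card (S × Bool) * p ^ k + k, _, ?_,
      h2.step (Multiplicative.ofAdd (1 : ZMod p)) (by simp)⟩
    rw [RegularWreathProduct.card, Nat.card_fun, Nat.card_congr Multiplicative.toAdd, Nat.card_zmod,
      h1, ← pow_mul, ← pow_add]

theorem exists_sep {V : Set (FreeGroup S)} (hV : V.Finite) :
    ∃ (P : Type u) (_ : Group P) (k : ℕ) (f : FreeGroup S →* P),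
      Nat.card P = p ^ k ∧ Set.InjOn f V := by
  classical
  obtain ⟨n, hn⟩ := ((hV.prod hV).image fun t => (t.1⁻¹ * t.2).toWord.length).bddAbove
  obtain ⟨P, _, k, f, h1, h2⟩ := exists_surv p (S := S) n
  refine ⟨P, _, k, f, h1, fun a ha b hb e => by_contra fun h => h2 _ FreeGroup.isReduced_toWord
    (fun e' => h (inv_mul_eq_one.1 (FreeGroup.toWord_eq_nil_iff.1 e'))) (hn ⟨(a, b), ⟨ha, hb⟩, rfl⟩)
    ?_⟩
  rw [FreeGroup.mk_toWord, map_mul, map_inv, e, inv_mul_cancel]

end Pool.Agent.P.MP_f0defb_al
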