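import Pool.Agent.P.MP_f0defb_al.Biq
import Pool.Agent.P.MP_f0defb_al.Defs4

/-! Every biquandle is a quotient of an injective solution, finite if the biquandle is finite. -/

namespace Pool.Agent.P.MP_f0defb_al

universe u

open Function

namespace InjCover

variable {Y Z : Type u}

/-- the restriction of a solution to an invariant subset -/
def sub (S : Solution Y) (A : Set Y) (h1 : ∀ x y, (S.r (x, y)).1 ∈ A ↔ y ∈ A)
    (h2 : ∀ x y, (S.r (x, y)).2 ∈ A ↔ x ∈ A) : Solution A where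
  r q := (⟨(S.r (q.1, q.2)).1, (h1 _ _).2 q.2.2⟩, ⟨(S.r (q.1, q.2)).2, (h2 _ _).2 q.1.2⟩)
  braid := by
    funext t
    obtain ⟨k1, k2, k3⟩ := S.yb t.1 t.2.1 t.2.2
    exact Prod.ext (Subtype.ext k1) (Prod.ext (Subtype.ext k2) (Subtype.ext k3))
  lam_bijective x := by
    refine ⟨fun y y' h => Subtype.ext ((S.lam_bijective x).1 (congrArg Subtype.val h)), fun z => ?_⟩
    obtain ⟨y, hy⟩ := (S.lam_bijective x).2 z
    exact ⟨⟨y, (h1 x y).1 (by rw [show (S.r (x, y)).1 = z from hy]; exact z.2)⟩, Subtype.ext hy⟩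
  rho_bijective y := by
    refine ⟨fun x x' h => Subtype.ext ((S.rho_bijective y).1 (congrArg Subtype.val h)), fun z => ?_⟩
    obtain ⟨x, hx⟩ := (S.rho_bijective y).2 z
    exact ⟨⟨x, (h2 x y).1 (by rw [show (S.r (x, y)).2 = z from hx]; exact z.2)⟩, Subtype.ext hx⟩

theorem sub_mor {S : Solution Y} {T : Solution Z} {f : Y → Z} (h : IsMorphism S T f) (A : Set Y)
    (h1 : ∀ x y, (S.r (x, y)).1 ∈ A ↔ y ∈ A) (h2 : ∀ x y, (S.r (x, y)).2 ∈ A ↔ x ∈ A) :
    IsMorphism (sub S A h1 h2) T (f ∘ Subtype.val) := by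
  funext q
  exact congrFun h (q.1.1, q.2.1)

/-- a finite injective cover of an indecomposable solution contains an indecomposable one -/
theorem exists_indec {T : Solution Z} (hT : IsIndec T) (n : ℕ) :
    ∀ (Y : Type u) (S : Solution Y) (f : Y → Z), Finite Y → Nat.card Y ≤ n →
      Injective (canonicalMap S) → IsMorphism S T f → Surjective f →
      ∃ (Y' : Type u) (S' : Solution Y') (f' : Y' → Z), Injective (canonicalMap S') ∧
        IsMorphism S' T f' ∧ Surjective f' ∧ Finite Y' ∧ Nat.card Y' ≤ n ∧ IsIndec S' := by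
  induction n using Nat.strong_induction_on with
  | _ n ih =>
    intro Y S f hY hn hi hm hs
    by_cases hS : IsIndec S
    · exact ⟨Y, S, f, hi, hm, hs, hY, hn, hS⟩
    simp only [IsIndec, not_forall, not_or] at hS
    obtain ⟨A, h1, h2, h3, h4⟩ := hS
    have hlt : Nat.card A < Nat.card Y := by
      obtain ⟨a, ha⟩ := (Set.ne_univ_iff_exists_notMem A).1 h4
      exact Finite.card_subtype_lt ha
    have hs' : Surjective (f ∘ (Subtype.val : A → Y)) := by
      have k : f '' A = ∅ ∨ f '' A = Set.univ := by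
        refine hT _ (fun z w => ?_) fun z w => ?_
        · obtain ⟨x, rfl⟩ := hs z
          constructor
          · rintro ⟨c, hc, e⟩
            obtain ⟨y, rfl⟩ := (S.lam_bijective x).2 c
            refine ⟨y, (h1 x y).1 hc, (T.lam_bijective (f x)).1 ?_⟩
            exact (congrArg Prod.fst (hm.map_r x y)).trans e
          · rintro ⟨y, hy, rfl⟩
            exact ⟨_, (h1 x y).2 hy, (congrArg Prod.fst (hm.map_r x y)).symm⟩
        · obtain ⟨y, rfl⟩ := hs w
          constructor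
          · rintro ⟨c, hc, e⟩
            obtain ⟨x, rfl⟩ := (S.rho_bijective y).2 c
            refine ⟨x, (h2 x y).1 hc, (T.rho_bijective (f y)).1 ?_⟩
            exact (congrArg Prod.snd (hm.map_r x y)).trans e
          · rintro ⟨x, hx, rfl⟩
            exact ⟨_, (h2 x y).2 hx, (congrArg Prod.snd (hm.map_r x y)).symm⟩
      rcases k with k | k
      · exact absurd (Set.image_eq_empty.1 k) h3
      · intro z
        obtain ⟨a, ha, e⟩ : z ∈ f '' A := k ▸ Set.mem_univ z
        exact ⟨⟨a, ha⟩, e⟩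
    have hi' : Injective (canonicalMap (sub S A h1 h2)) := fun y y' e =>
      Subtype.ext (hi (can_eq (f := fun a : A => canonicalMap S a)
        (fun a b => canonicalMap_rel S a b) e))
    obtain ⟨Y', S', f', k1, k2, k3, k4, k5, k6⟩ := ih (Nat.card A) (hlt.trans_le hn) A
      (sub S A h1 h2) _ inferInstance le_rfl hi' (sub_mor hm A h1 h2) hs'
    exact ⟨Y', S', f', k1, k2, k3, k4, k5.trans (hlt.le.trans hn), k6⟩

variable (T : Solution Z)

/-- the permutations `μ_x = σ_x⁻¹ λ_x` -/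
noncomputable def mu (x : Z) : Equiv.Perm Z := (T.sig x)⁻¹ * T.lam x

theorem ls (a z : Z) : T.lam a * T.sig z = T.sig (T.lam a z) * T.lam a :=
  Equiv.ext fun x => T.lam_sig a z x

theorem ss (c b : Z) : T.sig c * T.sig b = T.sig (T.sig c b) * T.sig c :=
  Equiv.ext fun x => T.sig_sig c b x

theorem k1 (x c : Z) : mu T (T.lam x c) * T.lam (T.rho c x) = T.lam x * mu T c := by
  rw [mu, mu, mul_assoc, T.yb1, ← mul_assoc, ← mul_assoc, mul_left_inj, inv_mul_eq_iff_eq_mul,
    ← mul_assoc, ← ls, mul_inv_cancel_right]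

theorem k4 (x y : Z) :
    T.sig x * mu T (T.lam x y) = mu T (T.lam x y) * T.sig (T.rho y x) := by
  rw [mu, mul_assoc, ls, ← T.sig_lam, ← mul_assoc, ← mul_assoc, mul_left_inj,
    mul_inv_eq_iff_eq_mul, mul_assoc, ← ss, inv_mul_cancel_left]

theorem k2 (x y : Z) : mu T (T.lam x y) * mu T (T.rho y x) = mu T x * mu T y := by
  have h1 := k1 T x y
  have h4 := k4 T x y
  calc mu T (T.lam x y) * mu T (T.rho y x)
      = (T.sig x)⁻¹ * (T.sig x * mu T (T.lam x y)) * ((T.sig (T.rho y x))⁻¹ * T.lam (T.rho y x)) := by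
        rw [inv_mul_cancel_left]; rfl
    _ = (T.sig x)⁻¹ * (mu T (T.lam x y) * T.lam (T.rho y x)) := by rw [h4]; group
    _ = mu T x * mu T y := by rw [h1, ← mul_assoc]; rfl

theorem k3 (x y : Z) : mu T (T.lam x y) (T.rho y x) = x := by
  rw [mu, Equiv.Perm.mul_apply, ← T.sig_lam, Solution.inv_ap]

/-- the action of permutations on functions -/
def pu (e : Equiv.Perm Z) (v : Z → ZMod 2) : Z → ZMod 2 := fun t => v (e⁻¹ t)

theorem pu_pu (e e' : Equiv.Perm Z) (v : Z → ZMod 2) : pu e (pu e' v) = pu (e * e') v := by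
  funext t
  simp [pu]

theorem pu_one (v : Z → ZMod 2) : pu 1 v = v := rfl

theorem pu_add (e : Equiv.Perm Z) (v w : Z → ZMod 2) : pu e (v + w) = pu e v + pu e w := rfl

theorem pu_sub (e : Equiv.Perm Z) (v w : Z → ZMod 2) : pu e (v - w) = pu e v - pu e w := rfl

theorem pu_inv (e : Equiv.Perm Z) (v : Z → ZMod 2) : pu e (pu e⁻¹ v) = v := by
  rw [pu_pu, mul_inv_cancel, pu_one]

theorem inv_pu (e : Equiv.Perm Z) (v : Z → ZMod 2) : pu e⁻¹ (pu e v) = v := by
  rw [pu_pu, inv_mul_cancel, pu_one]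

/-- the braiding of the affine extension -/
noncomputable def R (q : (Z × (Z → ZMod 2)) × (Z × (Z → ZMod 2))) :
    (Z × (Z → ZMod 2)) × (Z × (Z → ZMod 2)) :=
  ((T.lam q.1.1 q.2.1, pu (T.lam q.1.1) q.2.2),
    (T.rho q.2.1 q.1.1, pu (mu T (T.lam q.1.1 q.2.1))⁻¹
      (q.1.2 + pu (mu T q.1.1) q.2.2 - pu (T.lam q.1.1) q.2.2)))

/-- the affine extension of a solution -/
noncomputable def big : Solution (Z × (Z → ZMod 2)) where
  r := R T
  braid := by
    funext t
    obtain ⟨⟨x, u⟩, ⟨y, v⟩, ⟨z, s⟩⟩ := t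
    obtain ⟨h1, h2, h3⟩ := T.yb x y z
    simp only [comp, r12, r23, R, Prod.mk.injEq]
    refine ⟨⟨h1, by simp only [pu_pu, T.yb1]⟩, ⟨h2, ?_⟩, h3, ?_⟩
    · have e : T.lam (T.rho (T.lam y z) x) =
          (mu T (T.lam x (T.lam y z)))⁻¹ * T.lam x * mu T (T.lam y z) := by
        rw [mul_assoc, ← k1, inv_mul_cancel_left]
      rw [h1, e]
      simp only [pu_pu, pu_add, pu_sub, k1, T.yb1, mul_assoc, mul_inv_cancel, mul_one,
        mul_inv_cancel_left]
    · have e := k2 T (T.lam x y) (T.lam (T.rho y x) z)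
      rw [h1, h2] at e
      have a1 := k1 T x (T.lam y z)
      have a2 := k2 T x (T.lam y z)
      apply LeftInverse.injective (inv_pu (mu T (T.lam x (T.lam y z)) *
        mu T (T.lam (T.rho (T.lam y z) x) (T.rho z y))))
      conv_lhs => rw [e]
      simp only [pu_pu, pu_add, pu_sub, mul_assoc, mul_inv_cancel, mul_inv_cancel_left, k1, k2]
      simp only [← mul_assoc, a1, a2, mul_inv_cancel_right]
      abel
  lam_bijective p := by
    refine bijective_iff_has_inverse.2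
      ⟨fun q => ((T.lam p.1)⁻¹ q.1, pu (T.lam p.1)⁻¹ q.2), fun q => ?_, fun q => ?_⟩
    · simp [R, inv_pu]
    · simp [R, pu_inv]
  rho_bijective q := by
    refine ⟨fun p p' h => ?_, fun c => ?_⟩
    · simp only [R, Prod.mk.injEq] at h
      have e : p.1 = p'.1 := (T.rho _).injective h.1
      have e2 := congrArg (pu (mu T (T.lam p'.1 q.1))) h.2
      rw [e, pu_inv, pu_inv] at e2
      exact Prod.ext e (by simpa using e2)
    · obtain ⟨x, hx⟩ := (T.rho q.1).surjective c.1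
      refine ⟨(x, pu (mu T (T.lam x q.1)) c.2 + pu (T.lam x) q.2 - pu (mu T x) q.2), ?_⟩
      simp [R, hx, inv_pu]

open Classical in
/-- the points of the cover -/
def A : Set (Z × (Z → ZMod 2)) :=
  {p | ∀ t, T.sig p.1 t = t → p.2 t = if t = p.1 then 1 else 0}

theorem mem_pu {e : Equiv.Perm Z} {a b : Z} (h : T.sig a * e = e * T.sig b) (k : e b = a)
    (v : Z → ZMod 2) : (a, pu e v) ∈ A T ↔ (b, v) ∈ A T := by
  have h' : ∀ t, T.sig a (e t) = e (T.sig b t) := fun t => Equiv.congr_fun h t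
  subst k
  constructor
  · intro H t ht
    have := H (e t) (by rw [h', ht])
    by_cases c : t = b <;> simpa [pu, c] using this
  · intro H t ht
    obtain ⟨t, rfl⟩ := e.surjective t
    have := H t (e.injective (by rw [← h']; exact ht))
    by_cases c : t = b <;> simpa [pu, c] using this

theorem mem_add (x : Z) (u v : Z → ZMod 2) :
    (x, u + pu (mu T x) v - pu (T.lam x) v) ∈ A T ↔ (x, u) ∈ A T := by
  have h : ∀ t, T.sig x t = t → (u + pu (mu T x) v - pu (T.lam x) v) t = u t := fun t ht => by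
    simp [pu, mu, ht]
  exact forall₂_congr fun t ht => by simp only [h t ht]

theorem A1 (p q : Z × (Z → ZMod 2)) : ((big T).r (p, q)).1 ∈ A T ↔ q ∈ A T :=
  mem_pu T (ls T p.1 q.1).symm rfl q.2

theorem A2 (p q : Z × (Z → ZMod 2)) : ((big T).r (p, q)).2 ∈ A T ↔ p ∈ A T := by
  refine ((mem_pu T (k4 T p.1 q.1) (k3 T p.1 q.1) _).symm.trans ?_ :
    (T.rho q.1 p.1, pu (mu T (T.lam p.1 q.1))⁻¹
      (p.2 + pu (mu T p.1) q.2 - pu (T.lam p.1) q.2)) ∈ A T ↔ p ∈ A T)
  rw [pu_inv]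
  exact mem_add T p.1 p.2 q.2

/-- affine permutations -/
def aff (u : Z → ZMod 2) (e : Equiv.Perm Z) : Equiv.Perm (Z → ZMod 2) where
  toFun v := u + pu e v
  invFun v := pu e⁻¹ (v - u)
  left_inv v := by simp [inv_pu]
  right_inv v := by simp [pu_inv]

theorem aff_mul (u v : Z → ZMod 2) (e e' : Equiv.Perm Z) :
    aff u e * aff v e' = aff (u + pu e v) (e * e') :=
  Equiv.ext fun w => by
    change u + pu e (v + pu e' w) = u + pu e v + pu (e * e') w
    rw [pu_add, pu_pu, add_assoc]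

theorem cover_inj (h : ∀ y, T.sig y y = y) :
    Injective (canonicalMap (sub (big T) (A T) (A1 T) (A2 T))) := by
  intro p q e
  have k := can_eq (G := Equiv.Perm (Z → ZMod 2) × Equiv.Perm Z × Equiv.Perm Z)
    (f := fun a : A T => (aff a.1.2 (mu T a.1.1), T.lam a.1.1, mu T a.1.1)) (fun a b => by
      refine Prod.ext ?_ (Prod.ext (T.yb1 _ _).symm (k2 T _ _).symm)
      change aff _ _ * aff _ _ = aff (pu (T.lam a.1.1) b.1.2) (mu T (T.lam a.1.1 b.1.1)) *
        aff (pu (mu T (T.lam a.1.1 b.1.1))⁻¹ (a.1.2 + pu (mu T a.1.1) b.1.2 -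
          pu (T.lam a.1.1) b.1.2)) (mu T (T.rho b.1.1 a.1.1))
      rw [aff_mul, aff_mul, pu_inv, k2, add_sub_cancel]) e
  simp only [Prod.mk.injEq] at k
  obtain ⟨e1, e2, e3⟩ := k
  have e4 : p.1.2 = q.1.2 := by
    have := Equiv.congr_fun e1 0
    change p.1.2 + 0 = q.1.2 + 0 at this
    simpa using this
  rw [mu, mu, e2, mul_left_inj, inv_inj] at e3
  have e5 := p.2 p.1.1 (h _)
  have e6 := q.2 p.1.1 (by rw [← e3]; exact h _)
  rw [e4, e6, if_pos rfl] at e5
  refine Subtype.ext (Prod.ext ?_ e4)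
  by_contra n
  rw [if_neg n] at e5
  exact zero_ne_one e5

theorem exists_cover (h : ∀ y, T.sig y y = y) :
    ∃ (Y : Type u) (S : Solution Y) (f : Y → Z), Injective (canonicalMap S) ∧ IsMorphism S T f ∧
      Surjective f ∧ (Finite Z → Finite Y ∧ Nat.card Y ≤ Nat.card Z * 2 ^ Nat.card Z) := by
  classical
  refine ⟨A T, sub (big T) (A T) (A1 T) (A2 T), Prod.fst ∘ Subtype.val, cover_inj T h,
    sub_mor (S := big T) (f := Prod.fst) rfl _ _ _,
    fun z => ⟨⟨(z, fun t => if t = z then 1 else 0), fun t _ => by congr⟩, rfl⟩,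
    fun _ => ⟨inferInstance, ?_⟩⟩
  refine (Nat.card_le_card_of_injective _ Subtype.val_injective).trans ?_
  simp [Nat.card_prod, Nat.card_fun]

end InjCover

open InjCover in
theorem injective_cover {Z : Type u} (T : Solution Z) :
    IsBiquandle T ↔ ∃ (Y : Type u) (S : Solution Y) (f : Y → Z),
      Injective (canonicalMap S) ∧ IsMorphism S T f ∧ Surjective f ∧
      (Finite Z → Finite Y ∧ Nat.card Y ≤ Nat.card Z * 2 ^ Nat.card Z ∧
        (IsIndec T → IsIndec S)) := by
  rw [isBiquandle_iff]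
  refine ⟨fun h => ?_, ?_⟩
  · obtain ⟨Y, S, f, h1, h2, h3, h4⟩ := exists_cover T h
    by_cases c : Finite Z ∧ IsIndec T
    · obtain ⟨Y', S', f', k1, k2, k3, k4, k5, k6⟩ :=
        exists_indec c.2 _ Y S f (h4 c.1).1 (h4 c.1).2 h1 h2 h3
      exact ⟨Y', S', f', k1, k2, k3, fun _ => ⟨k4, k5, fun _ => k6⟩⟩
    · exact ⟨Y, S, f, h1, h2, h3, fun k => ⟨(h4 k).1, (h4 k).2, fun k' => absurd ⟨k, k'⟩ c⟩⟩
  · rintro ⟨Y, S, f, h1, h2, h3, -⟩ z
    obtain ⟨y, rfl⟩ := h3 z
    have := can_kink S y 1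
    rw [zpow_one] at this
    rw [← h2.map_kink, h1 this]

end Pool.Agent.P.MP_f0defb_al
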