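import Pool.Agent.P.MP_f0defb_al.Norm
import Pool.Agent.P.MP_f0defb_al.Defs3

/-! Morphisms of cocycles, multipermutation solutions, and the next level of a cocycle. -/

namespace Pool.Agent.P.MP_f0defb_al

universe u

open Function
open FreeGroup (of lift map lift_apply_of)

section ret

variable {Y Z : Type u} {S : Solution Y} {T : Solution Z}

theorem ret_refl (n : ℕ) : ∀ x, Ret S n x x := by
  induction n with
  | zero => exact fun _ => rfl
  | succ n ih => exact fun _ _ => ⟨ih _, ih _⟩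

theorem IsMorphism.multiperm {f : Y → Z} (h : IsMorphism S T f) {m : ℕ}
    (hm : ∀ a b, f a = f b → Ret S m a b) (hT : IsMultiperm T) : IsMultiperm S := by
  have k : ∀ n a b, Ret T n (f a) (f b) → Ret S (m + n) a b := fun n => by
    induction n with
    | zero => exact hm
    | succ n ih =>
      intro a b k z
      obtain ⟨k1, k2⟩ := k (f z)
      rw [h.map_r, h.map_r] at k1 k2
      exact ⟨ih _ _ k1, ih _ _ k2⟩
  obtain ⟨n, hn⟩ := hT
  exact ⟨m + n, fun a b => k n a b (hn _ _)⟩

end ret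

/-- an action by automorphisms -/
def mkAut {H A : Type u} [Group H] [Group A] (f : H → A → A) (h1 : ∀ y, f 1 y = y)
    (hm : ∀ a b y, f (a * b) y = f a (f b y)) (hd : ∀ a x y, f a (x * y) = f a x * f a y) :
    H →* MulAut A :=
  @MulDistribMulAction.toMulAut H A _ _
    { smul := f, one_smul := h1, mul_smul := hm, smul_mul := hd
      smul_one := fun a => show f a 1 = 1 by simpa using hd a 1 1 }

namespace Coc

variable {H A H' A' H'' A'' : Type u} [Group H] [Group A] [Group H'] [Group A'] [Group H'']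
  [Group A''] (K : Coc H A)

theorem ret [Group.IsNilpotent A] (N : Subgroup A) [hN : N.Normal]
    (h1 : ∀ h, ∀ a ∈ N, K.mA h a ∈ N) (h2 : ∀ a b, a⁻¹ * b ∈ N → K.p a = K.p b) :
    ∃ m, ∀ a b, a⁻¹ * b ∈ N → Ret K.wire.sol m a b := by
  have hz : ∀ m h, ∀ a ∈ Subgroup.upperCentralSeries A m,
      K.mA h a ∈ Subgroup.upperCentralSeries A m :=
    fun m h => Subgroup.characteristic_iff_le_comap.1 inferInstance (K.mA h)
  have k : ∀ m a b, a⁻¹ * b ∈ N → a⁻¹ * b ∈ Subgroup.upperCentralSeries A m →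
      Ret K.wire.sol m a b := by
    intro m
    induction m with
    | zero => exact fun a b _ h => inv_mul_eq_one.1 (Subgroup.mem_bot.1 h)
    | succ m ih =>
      intro a b h h' z
      refine ⟨?_, ?_⟩
      · change Ret _ m (K.mA (K.p a) z) (K.mA (K.p b) z)
        rw [h2 a b h]
        exact ret_refl m _
      · have e1 := h1 (K.p z) _ h
        have e2 := hz _ (K.p z) _ h'
        rw [map_mul, map_inv] at e1 e2
        change Ret _ m (K.mA (K.p (K.mA (K.p z) a))⁻¹
          ((K.mA (K.p z) a)⁻¹ * z * (K.mA (K.p z) a)⁻¹⁻¹))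
          (K.mA (K.p (K.mA (K.p z) b))⁻¹ ((K.mA (K.p z) b)⁻¹ * z * (K.mA (K.p z) b)⁻¹⁻¹))
        rw [h2 _ _ e1]
        generalize K.mA (K.p z) a = a' at *
        generalize K.mA (K.p z) b = b' at *
        refine ih _ _ ?_ ?_ <;> rw [← map_inv, ← map_mul]
        · refine h1 _ _ ?_
          convert N.mul_mem (hN.conj_mem _ (N.inv_mem e1) (a'⁻¹ * z⁻¹ * a')) e1 using 1
          group
        · refine hz _ _ _ ?_
          convert inv_mem (Subgroup.mem_upperCentralSeries_succ_iff.1 (inv_mem e2)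
            (a'⁻¹ * z⁻¹ * a')) using 1
          simp only [commutatorElement_def]
          group
  obtain ⟨m, hm⟩ := Group.IsNilpotent.nilpotent A
  exact ⟨m, fun a b h => k m a b h (hm ▸ Subgroup.mem_top _)⟩

/-- morphisms of groups with operators and cocycle -/
structure Hom (K : Coc H A) (K' : Coc H' A') where
  e : H →* H'
  f : A →* A'
  equi : ∀ h a, f (K.mA h a) = K'.mA (e h) (f a)
  coc : ∀ a, K'.p (f a) = e (K.p a)

variable {K} {K' : Coc H' A'} {K'' : Coc H'' A''}

/-- the induced map of circle groups -/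
def Hom.circ (m : K.Hom K') : K.Circ →* K'.Circ :=
  MonoidHom.mk' (fun z => K'.up (m.f (K.dn z))) fun z w => by
    rw [K.dn_mul, map_mul, m.equi, ← m.coc, K'.up_mul]

/-- composition -/
def Hom.comp (m' : K'.Hom K'') (m : K.Hom K') : K.Hom K'' where
  e := m'.e.comp m.e
  f := m'.f.comp m.f
  equi h a := by simp [m.equi, m'.equi]
  coc a := by simp [m.coc, m'.coc]

variable (K)

/-- the cocycle with values in the circle group -/
def self : Coc K.Circ A := ⟨K.mA.comp K.ph, K.up, K.up_mul⟩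

/-- the letters of a cocycle -/
noncomputable def mag : Mag K.Circ (K.Circ × A) :=
  trMag (fun t => K.up (K.mA (K.ph t.1) t.2))
    (fun t => K.up ((dgE K.wire.sol).symm (K.mA (K.ph t.1) t.2)))
    (fun t => by
      rw [map_mul, ← mA_mul]
      exact congrArg _ (lam_E K.wire.sol _))
    fun s => by
      rw [map_mul, ← mA_mul, map_inv]
      refine congrArg _ ((dgE K.wire.sol).symm_apply_eq.2 ?_)
      refine (K.wire.sol.dg_eq ?_).symm
      rw [Wire.lam_eq]
      exact (K.mA_mul _ _ _).trans ((congrArg (K.mA · _) (mul_inv_cancel _)).trans (K.mA_one _))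

/-- evaluation of words -/
def q : FreeGroup (K.Circ × A) →* A := lift fun t => K.mA (K.ph t.1) t.2

theorem q_m (h : K.Circ) (w : FreeGroup (K.Circ × A)) :
    K.q (K.mag.mF h w) = K.mA (K.ph h) (K.q w) :=
  DFunLike.congr_fun (f := K.q.comp (K.mag.mF h).toMonoidHom)
    (g := (K.mA (K.ph h)).toMonoidHom.comp K.q) (FreeGroup.ext_hom _ _ fun t => by
      change K.q (of (h * t.1, t.2)) = K.mA (K.ph h) (K.q (of t))
      rw [q, lift_apply_of, lift_apply_of, map_mul, mA_mul]) w

theorem q_p (w : FreeGroup (K.Circ × A)) : K.up (K.q w) = K.mag.coc.p w := by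
  induction w using fg_ind with
  | h1 => rw [map_one, up_one, p_one]
  | h a s =>
    have e : K.up (K.q (a * of s)) = K.mag.step s (K.up (K.q a)) := by
      change _ = _ * K.up (K.mA (K.ph ((K.up (K.q a))⁻¹ * s.1)) s.2)
      rw [← up_mul, mA_mul, map_mul K.ph, map_inv K.ph, map_mul K.q, q, lift_apply_of]
      exact congrArg (fun g => K.up (_ * K.mA g _)) (mul_inv_cancel_left _ _).symm
    rw [e, Mag.p_mul, (K.mag.step s).apply_eq_iff_eq]

variable (P : Type u) [Group P]

/-- the next level -/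
def next : Coc K.Circ (A × (K.Circ → P)) where
  mA := mkAut (fun h z => (K.mA (K.ph h) z.1, fun k => z.2 (k * h))) (by simp)
    (by simp [mul_assoc]) fun _ _ _ => Prod.ext (map_mul _ _ _) rfl
  p z := K.up z.1
  coc _ _ := K.up_mul _ _

theorem next_mp [Group.IsNilpotent (A × (K.Circ → P))] : ∃ m, ∀ a b : A × (K.Circ → P),
    a.1 = b.1 → Ret (K.next P).wire.sol m a b := by
  obtain ⟨m, hm⟩ := (K.next P).ret (MonoidHom.fst A (K.Circ → P)).ker
    (fun h a (ha : a.1 = 1) => show K.mA _ a.1 = 1 by rw [ha, map_one])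
    fun a b h => congrArg K.up (inv_mul_eq_one.1 h)
  exact ⟨m, fun a b h => hm a b (inv_mul_eq_one.2 h)⟩

variable {P}

/-- the map from the words to the next level -/
noncomputable def nHom (f : FreeGroup (K.Circ × A) →* P) : K.mag.coc.Hom (K.next P) where
  e := .id _
  f := K.q.prod (MonoidHom.pi fun h => f.comp (K.mag.mF h).toMonoidHom)
  equi h w := Prod.ext (K.q_m h w) (funext fun k => congrArg f (K.mag.coc.mA_mul k h w))
  coc := K.q_p

end Coc

theorem Wire.mor {H A Y H' A' Y' : Type u} [Group H] [Group A] [Group H'] [Group A']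
    (W : Wire H A Y) (W' : Wire H' A' Y') (m : W.toCoc.Hom W'.toCoc) (χ : Y → Y')
    (h1 : ∀ h y, χ (W.mY h y) = W'.mY (m.e h) (χ y)) (h2 : ∀ a y, χ (W.t a y) = W'.t (m.f a) (χ y))
    (h3 : ∀ y, W'.c (χ y) = m.f (W.c y)) : IsMorphism W.sol W'.sol χ := by
  funext q
  refine Prod.ext ?_ ?_
  · change χ (W.mY (W.p (W.c q.1)) q.2) = W'.mY (W'.p (W'.c (χ q.1))) (χ q.2)
    rw [h1, h3, m.coc]
  · change χ (W.rr (W.c q.2) q.1) = W'.rr (W'.c (χ q.2)) (χ q.1)
    rw [Wire.rr, Wire.rr, h1, h2, h3, h3, map_inv m.e, map_inv m.f, m.coc, ← m.equi, m.coc]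

end Pool.Agent.P.MP_f0defb_al
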