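import Pool.Agent.P.MP_f0defb_al.Wire

/-! Left quasigroups with bijective diagonal, the cocycle on the free group, free racks. -/

namespace Pool.Agent.P.MP_f0defb_al

universe u

open Function
open FreeGroup (of lift map lift_apply_of freeGroupCongr)

theorem fg_ind {S : Type u} {Q : FreeGroup S → Prop} (h1 : Q 1)
    (h : ∀ a s, Q a ↔ Q (a * of s)) (a : FreeGroup S) : Q a := by
  have k : ∀ b a, Q a ↔ Q (a * b) := fun b => by
    induction b using FreeGroup.induction_on with
    | C1 => simp
    | of s => exact fun a => h a s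
    | inv_of s hs => exact fun a => by simpa using (hs (a * (of s)⁻¹)).symm
    | mul x y hx hy => exact fun a => by rw [← mul_assoc, ← hy, ← hx]
  simpa using (k a 1).1 h1

/-- a set of letters with operators, a labelling and the inverse of the diagonal -/
structure Mag (H S : Type u) [Group H] where
  mS : H →* Equiv.Perm S
  l : S → H
  E : S → S
  hE : ∀ s, mS (l (E s)) s = E s
  hD : ∀ s, E (mS (l s)⁻¹ s) = s

namespace Mag

variable {H S : Type u} [Group H] (M : Mag H S)

/-- reading one letter -/
def step (s : S) : Equiv.Perm H where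
  toFun γ := γ * M.l (M.mS γ⁻¹ s)
  invFun γ := γ * (M.l (M.E (M.mS γ⁻¹ s)))⁻¹
  left_inv γ := by
    simp only [mul_inv_rev, ← act_mul, M.hD]
    simp
  right_inv γ := by
    simp only [mul_inv_rev, inv_inv, ← act_mul, M.hE]
    simp

theorem step_eq (s : S) (γ : H) : M.step s γ = γ * M.l (M.mS γ⁻¹ s) := rfl

/-- reading words -/
def th : FreeGroup S →* Equiv.Perm H := lift fun s => (M.step s)⁻¹

/-- the action on words -/
def mF : H →* MulAut (FreeGroup S) where
  toFun h := freeGroupCongr (M.mS h)
  map_one' := by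
    ext w
    simp
  map_mul' a b := by
    ext w
    simp [FreeGroup.map.comp]

theorem mF_eq (h : H) (w : FreeGroup S) : M.mF h w = map (M.mS h) w := rfl

theorem mF_of (h : H) (s : S) : M.mF h (of s) = of (M.mS h s) := rfl

theorem th_mF (h : H) (a : FreeGroup S) : ∀ γ, M.th (M.mF h a) (h * γ) = h * M.th a γ := by
  induction a using FreeGroup.induction_on with
  | C1 => simp
  | of s =>
    intro γ
    simp only [mF_of, th, lift_apply_of]
    change h * γ * (M.l (M.E (M.mS (h * γ)⁻¹ (M.mS h s))))⁻¹ = h * (γ * _)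
    rw [act_mul, mul_inv_rev, inv_mul_cancel_right, mul_assoc]
  | inv_of s hs =>
    intro γ
    rw [map_inv, map_inv, map_inv, Equiv.Perm.inv_eq_iff_eq, hs]
    simp
  | mul x y hx hy => simp [hx, hy]

/-- the cocycle -/
def coc : Coc H (FreeGroup S) where
  mA := M.mF
  p a := M.th a⁻¹ 1
  coc a b := by
    rw [mul_inv_rev, map_mul, Equiv.Perm.mul_apply, ← map_inv, ← M.th_mF, mul_one]

theorem p_mul (a : FreeGroup S) (s : S) : M.coc.p (a * of s) = M.step s (M.coc.p a) := by
  change M.th (a * of s)⁻¹ 1 = M.step s (M.th a⁻¹ 1)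
  rw [mul_inv_rev, map_mul, map_inv M.th (of s), th, lift_apply_of, inv_inv]
  rfl

theorem p_of (s : S) : M.coc.p (of s) = M.l s := by
  simpa [Coc.p_one, step_eq] using M.p_mul 1 s

theorem p_map {H' S' : Type u} [Group H'] (M' : Mag H' S') (η : H →* H') (e : S → S')
    (he : ∀ h s, e (M.mS h s) = M'.mS (η h) (e s)) (hl : ∀ s, η (M.l s) = M'.l (e s))
    (a : FreeGroup S) : η (M.coc.p a) = M'.coc.p (map e a) := by
  induction a using fg_ind with
  | h1 => simp [Coc.p_one]
  | h a s =>
    rw [map_mul, FreeGroup.map.of, p_mul, p_mul, step_eq, map_mul, hl, he, map_inv, ← step_eq,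
      (M'.step _).apply_eq_iff_eq]

/-- the free rack on the letters -/
def wire : Wire H (FreeGroup S) (S × FreeGroup S) := M.coc.prod M.mS of fun _ _ => rfl

theorem circ_ext {K : Type u} [Group K] {f f' : M.coc.Circ →* K}
    (h : ∀ s, f (M.coc.up (of s)) = f' (M.coc.up (of s))) : f = f' := by
  have k : ∀ a, f (M.coc.up a) = f' (M.coc.up a) := fun a => by
    induction a using fg_ind with
    | h1 => simp [Coc.up_one]
    | h a s =>
      obtain ⟨s, rfl⟩ := (M.mS (M.coc.p a)).surjective s
      rw [← mF_of]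
      erw [Coc.up_mul]
      rw [map_mul, map_mul, h, mul_left_inj]
  exact MonoidHom.ext fun z => M.coc.up_dn z ▸ k _

/-- words for the circle product -/
def io : FreeGroup S →* M.coc.Circ := lift fun s => M.coc.up (of s)

theorem io_bij : Bijective M.io := by
  let η : FreeGroup S →* H := lift M.l
  let M' : Mag (FreeGroup S) S :=
    ⟨M.mS.comp η, of, M.E, fun s => by simpa [η] using M.hE s, fun s => by simpa [η] using M.hD s⟩
  have e : ∀ a, η (M'.coc.p a) = M.coc.p a := fun a => by
    simpa using M'.p_map M η id (fun _ _ => rfl) (fun s => lift_apply_of) a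
  let κ : M.coc.Circ →* FreeGroup S := MonoidHom.mk' (fun z => M'.coc.p (M.coc.dn z)) fun z w => by
    rw [Coc.dn_mul, ← M'.coc.coc, ← e]
    rfl
  have k : ∀ s, κ (M.coc.up (of s)) = of s := M'.p_of
  refine bijective_iff_has_inverse.2 ⟨κ, DFunLike.congr_fun (f := κ.comp M.io) (g := .id _) ?_,
    DFunLike.congr_fun (f := M.io.comp κ) (g := .id _) ?_⟩
  · exact FreeGroup.ext_hom _ _ fun s => by simp [io, k]
  · exact M.circ_ext fun s => by simp [io, k]

end Mag

section eps

variable {F : Type u} (S : Solution F)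

/-- the inverse of the diagonal -/
noncomputable def dgE : F ≃ F := Equiv.ofBijective S.dg ⟨S.dg_injective, S.dg_surjective⟩

theorem lam_E (y : F) : S.lam ((dgE S).symm y) y = (dgE S).symm y := by
  obtain ⟨y, rfl⟩ := (dgE S).surjective y
  rw [Equiv.symm_apply_apply]
  exact S.lam_dg y

/-- the letters of a solution -/
noncomputable def uMag : Mag (StructureGroup S) F where
  mS := act S
  l := canonicalMap S
  E := (dgE S).symm
  hE y := by rw [act_of, lam_E]
  hD y := by
    rw [map_inv, act_of]
    exact (dgE S).symm_apply_apply y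

theorem step_rel (x z : F) :
    (uMag S).step z * (uMag S).step x = (uMag S).step (S.sig z x) * (uMag S).step z := by
  ext1 γ
  obtain ⟨a, rfl⟩ := (act S γ).surjective x
  obtain ⟨b, rfl⟩ := ((S.lam a).trans (act S γ)).surjective z
  simp only [Equiv.trans_apply, ← act_sig, S.sig_lam, Equiv.Perm.mul_apply, Mag.step_eq, uMag]
  simp [act_of, mul_assoc, canonicalMap_rel S a b, S.r_eq]

variable {S} {H T : Type u} [Group H]

/-- words act through the derived rack -/
noncomputable def tau (S : Solution F) (e : T → F) : FreeGroup T →* Equiv.Perm F :=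
  lift fun s => (S.sig (e s))⁻¹

theorem th_conj (e : T → F) (w : FreeGroup T) : ∀ y, (uMag S).th (map e w * of y * (map e w)⁻¹) =
    (uMag S).th (of (tau S e w y)) := by
  induction w using FreeGroup.induction_on with
  | C1 => simp
  | of s =>
    intro y
    obtain ⟨y, rfl⟩ := (S.sig (e s)).surjective y
    simp only [Mag.th, tau, map_mul, map_inv, FreeGroup.map.of, lift_apply_of, inv_inv, Solution.inv_ap]
    rw [← mul_inv_rev, ← step_rel]
    group
  | inv_of s hs =>
    intro y
    have := hs ((tau S e (of s))⁻¹ y)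
    simp only [map_mul, map_inv, Solution.ap_inv] at this ⊢
    rw [← this]
    group
  | mul a b ha hb =>
    intro y
    have h1 := ha (tau S e b y)
    have h2 := hb y
    simp only [map_mul, map_inv, Equiv.Perm.mul_apply] at h1 h2 ⊢
    rw [← h1, ← h2]
    group

theorem tau_sig' (e : T → F) (w : FreeGroup T) :
    ∀ z x, tau S e w (S.sig z x) = S.sig (tau S e w z) (tau S e w x) := by
  have k : ∀ f : Equiv.Perm F, (∀ z x, f (S.sig z x) = S.sig (f z) (f x)) →
      ∀ z x, f⁻¹ (S.sig z x) = S.sig (f⁻¹ z) (f⁻¹ x) := fun f h z x => by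
    rw [Equiv.Perm.inv_eq_iff_eq, h]
    simp
  induction w using FreeGroup.induction_on with
  | C1 => simp
  | of s => simpa only [tau, lift_apply_of] using k _ (S.sig_sig (e s))
  | inv_of s hs => simpa only [map_inv] using k _ hs
  | mul a b ha hb => simp [ha, hb]

theorem Wire.map_tau {A Y : Type u} [Group A] {W : Wire H A Y} {f : F → Y}
    (h : IsMorphism S W.sol f) (e : T → F) (Ψ : FreeGroup T →* A)
    (hΨ : ∀ s, Ψ (of s) = W.c (f (e s))) (w : FreeGroup T) :
    ∀ y, f (tau S e w y) = W.t (Ψ w) (f y) := by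
  induction w using FreeGroup.induction_on with
  | C1 => simp
  | of s =>
    intro y
    obtain ⟨y, rfl⟩ := (S.sig (e s)).surjective y
    simp [tau, h.map_sig, W.sig_eq, hΨ]
  | inv_of s hs =>
    intro y
    rw [map_inv Ψ, map_inv W.t, Equiv.Perm.eq_inv_iff_eq, ← hs]
    simp
  | mul a b ha hb => simp [ha, hb]

/-- evaluation of the free rack -/
noncomputable def eps (S : Solution F) (e : T → F) (m : T × FreeGroup T) : F := tau S e m.2 (e m.1)

variable (M : Mag H T) (η : H →* StructureGroup S) (e : T → F)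
  (he : ∀ h s, e (M.mS h s) = act S (η h) (e s)) (hl : ∀ s, η (M.l s) = canonicalMap S (e s))

include he hl

theorem eps_p (m : T × FreeGroup T) : η (M.wire.p (M.wire.c m)) = canonicalMap S (eps S e m) := by
  refine (M.p_map (uMag S) η e he hl _).trans (Eq.trans ?_ ((uMag S).p_of _))
  change (uMag S).th (map e (m.2 * of m.1 * m.2⁻¹))⁻¹ 1 = (uMag S).th _ 1
  rw [map_inv (uMag S).th, map_inv (uMag S).th, map_mul (map e), map_mul (map e), map_inv (map e),
    FreeGroup.map.of, th_conj]
  rfl

omit hl in
theorem eps_m (h : H) (m : T × FreeGroup T) :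
    eps S e (M.wire.mY h m) = act S (η h) (eps S e m) := by
  have k : ∀ w x, tau S e (M.mF h w) (act S (η h) x) = act S (η h) (tau S e w x) := fun w => by
    induction w using FreeGroup.induction_on with
    | C1 => simp
    | of s =>
      intro x
      simp only [Mag.mF_of, tau, lift_apply_of, he]
      rw [Equiv.Perm.inv_eq_iff_eq, ← act_sig]
      simp
    | inv_of s hs =>
      intro x
      rw [map_inv, map_inv, map_inv, Equiv.Perm.inv_eq_iff_eq, hs]
      simp
    | mul a b ha hb => simp [ha, hb]
  change tau S e (M.mF h m.2) (e (M.mS h m.1)) = _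
  rw [he, k]
  rfl

theorem eps_mor : IsMorphism M.wire.sol S (eps S e) := by
  have k1 : ∀ x y, eps S e (M.wire.sol.lam x y) = S.lam (eps S e x) (eps S e y) := fun x y => by
    rw [Wire.lam_eq, eps_m M η e he, eps_p M η e he hl, act_of]
  have k2 : ∀ z x, eps S e (M.wire.sol.sig z x) = S.sig (eps S e z) (eps S e x) := fun z x => by
    rw [Wire.sig_eq]
    change tau S e ((z.2 * of z.1 * z.2⁻¹)⁻¹ * x.2) (e x.1) = _
    have := tau_sig' (S := S) e z.2 (e z.1) ((tau S e z.2)⁻¹ (eps S e x))
    rw [Solution.ap_inv] at this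
    rw [eps, ← this]
    simp [tau, eps]
  funext q
  refine Prod.ext (k1 _ _) ((S.lam (S.lam (eps S e q.1) (eps S e q.2))).injective ?_)
  change _ = S.lam _ (S.rho _ _)
  rw [← S.sig_lam, ← k1, ← k2, Solution.sig_lam]
  exact (k1 _ _).symm

end eps

end Pool.Agent.P.MP_f0defb_al
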