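import Pool.Agent.P.MP_f0defb_al.Mag

/-! The normal form of the elements of the free solution. -/

namespace Pool.Agent.P.MP_f0defb_al

universe u

open Function
open FreeGroup (of lift map lift_apply_of)

/-- letters `Γ × X` with the translation action -/
def trMag {Γ X : Type u} [Group Γ] (l E : Γ × X → Γ) (h1 : ∀ t, l (E t * t.1, t.2) = E t)
    (h2 : ∀ s, E ((l s)⁻¹ * s.1, s.2) = l s) : Mag Γ (Γ × X) where
  mS := mkAct (fun a t => (a * t.1, t.2)) (by simp) (by simp [mul_assoc])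
  l := l
  E t := (E t * t.1, t.2)
  hE t := by
    change (l (E t * t.1, t.2) * t.1, t.2) = _
    rw [h1]
  hD s := by
    change (E ((l s)⁻¹ * s.1, s.2) * ((l s)⁻¹ * s.1), s.2) = s
    rw [h2, mul_inv_cancel_left]

variable {X F : Type u} {S : Solution F} {i : X → F}

section sub

variable {Γ : Type u} [Group Γ] (η : Γ →* StructureGroup S)

/-- the value of a letter -/
noncomputable def ev (i : X → F) (t : Γ × X) : F := act S (η t.1) (i t.2)

variable (hη : Injective η) (l E : Γ × X → Γ) (hl : ∀ t, η (l t) = canonicalMap S (ev η i t))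
  (hE : ∀ t, η (E t) = canonicalMap S ((dgE S).symm (ev η i t)))

/-- letters over a closed subgroup of the structure group -/
noncomputable def subMag : Mag Γ (Γ × X) := trMag l E
  (fun t => hη (by rw [hl, ev, map_mul, ← act_mul, hE, act_of]; exact congrArg _ (lam_E S _)))
  (fun s => hη (by
    rw [hE, ev, map_mul, ← act_mul, map_inv, hl]
    exact congrArg _ ((uMag S).hD _)))

theorem sub_he (h : Γ) (s : Γ × X) :
    ev η i ((subMag η hη l E hl hE).mS h s) = act S (η h) (ev η i s) := by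
  rw [ev, ev, act_mul, ← map_mul]
  rfl

theorem exists_sec (h : IsFree S i) : ∃ s : F → (Γ × X) × FreeGroup (Γ × X),
    IsMorphism S (subMag η hη l E hl hE).wire.sol s ∧ (∀ x, s (i x) = ((1, x), 1)) ∧
      ∀ y, eps S (ev η i) (s y) = y := by
  obtain ⟨s, ⟨h1, h2⟩, -⟩ := h _ (subMag η hη l E hl hE).wire.sol fun x => ((1, x), 1)
  refine ⟨s, h1, congrFun h2, congrFun ((h F S i).unique (y₁ := eps S (ev η i) ∘ s) (y₂ := id)
    ⟨h1.trans (eps_mor _ η _ (sub_he η hη l E hl hE) hl), ?_⟩ ⟨rfl, rfl⟩)⟩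
  rw [comp_assoc, h2]
  funext x
  simp [eps, ev]

end sub

theorem gen_top (h : IsFree S i) (Γ : Subgroup (StructureGroup S))
    (h1 : ∀ a ∈ Γ, ∀ x, canonicalMap S (act S a (i x)) ∈ Γ)
    (h2 : ∀ a ∈ Γ, ∀ x, canonicalMap S ((dgE S).symm (act S a (i x))) ∈ Γ)
    (γ : StructureGroup S) : γ ∈ Γ := by
  obtain ⟨s, -, -, k⟩ := exists_sec Γ.subtype Γ.subtype_injective (fun t => ⟨_, h1 _ t.1.2 t.2⟩)
    (fun t => ⟨_, h2 _ t.1.2 t.2⟩) (fun _ => rfl) (fun _ => rfl) h
  induction γ using gen_ind with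
  | h1 y =>
    rw [← k y, ← eps_p _ Γ.subtype _ (sub_he _ Γ.subtype_injective (fun t => ⟨_, h1 _ t.1.2 t.2⟩)
      (fun t => ⟨_, h2 _ t.1.2 t.2⟩) (fun _ => rfl) fun _ => rfl) fun _ => rfl]
    exact Subtype.prop _
  | h0 => exact Γ.one_mem
  | h2 a b ha hb => exact Γ.mul_mem ha hb
  | h3 a ha => exact Γ.inv_mem ha

/-- the value of a letter of `G × X` -/
noncomputable abbrev ef (S : Solution F) (i : X → F) : StructureGroup S × X → F :=
  ev (MonoidHom.id _) i

/-- the letters `G × X` -/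
noncomputable def fMag (S : Solution F) (i : X → F) :
    Mag (StructureGroup S) (StructureGroup S × X) :=
  subMag (i := i) (.id _) injective_id _ _ (fun _ => rfl) fun _ => rfl

theorem ef_he (h : StructureGroup S) (s : StructureGroup S × X) :
    ef S i ((fMag S i).mS h s) = act S h (ef S i s) :=
  sub_he (i := i) (.id _) injective_id _ _ (fun _ => rfl) (fun _ => rfl) h s

theorem ef_p (m : (StructureGroup S × X) × FreeGroup (StructureGroup S × X)) :
    (fMag S i).wire.p ((fMag S i).wire.c m) = canonicalMap S (eps S (ef S i) m) :=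
  eps_p (fMag S i) (.id _) _ ef_he (fun _ => rfl) m

theorem normal_form (h : IsFree S i) :
    (Bijective fun t : StructureGroup S × StructureGroup S × X =>
      act S t.1 ((ract S t.2.1).unop (i t.2.2))) ∧
    Bijective (lift fun t : StructureGroup S × X => canonicalMap S (act S t.1 (i t.2))) := by
  obtain ⟨s, h1, h2, h3⟩ : ∃ s, IsMorphism S (fMag S i).wire.sol s ∧ _ :=
    exists_sec (.id _) injective_id _ _ (fun _ => rfl) (fun _ => rfl) h
  have k1 : ∀ γ, (fMag S i).wire.ph (Wire.hom h1 γ) = γ :=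
    DFunLike.congr_fun (f := (fMag S i).wire.ph.comp (Wire.hom h1)) (g := .id _)
      (PresentedGroup.ext fun y => by
        change (fMag S i).wire.ph (Wire.hom h1 (canonicalMap S y)) = canonicalMap S y
        rw [Wire.hom_of]
        exact (ef_p _).trans (congrArg _ (h3 y)))
  have k2 : ∀ t, s (ef S i t) = (t, 1) := fun t => by
    rw [ef, ev, Wire.map_act h1, k1, h2]
    exact Prod.ext (Prod.ext (mul_one _) rfl) (map_one ((fMag S i).mF t.1))
  have k3 : ∀ t, (fMag S i).wire.c (s (ef S i t)) = of t := fun t => by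
    rw [k2]
    exact (mul_one _).trans (one_mul _)
  have k4 : ∀ m, s (eps S (ef S i) m) = m := fun m => by
    rw [eps, Wire.map_tau h1 _ (.id _) fun t => (k3 t).symm, k2]
    exact Prod.ext rfl (mul_one _)
  have k5 : ∀ z, Wire.hom h1 ((fMag S i).coc.ph z) = z :=
    DFunLike.congr_fun (f := (Wire.hom h1).comp (fMag S i).coc.ph) (g := .id _)
      ((fMag S i).circ_ext fun t => by
        change Wire.hom h1 ((fMag S i).coc.p (of t)) = _
        rw [Mag.p_of]
        exact (Wire.hom_of h1 _).trans (congrArg _ (k3 t)))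
  have k6 : ∀ t : StructureGroup S × StructureGroup S × X, ∀ w,
      w = (fMag S i).mF ((fMag S i).l (1, t.2.2)) ((fMag S i).coc.dn (Wire.hom h1 t.2.1)) →
      s (act S t.1 ((ract S t.2.1).unop (i t.2.2))) = ((t.1 * ((fMag S i).coc.p w)⁻¹, t.2.2),
        (fMag S i).mF (t.1 * ((fMag S i).coc.p w)⁻¹) w⁻¹) := fun t w e => by
    have e1 : (fMag S i).wire.p ((fMag S i).wire.c ((1, t.2.2), 1)) = (fMag S i).l (1, t.2.2) :=
      (congrArg _ ((mul_one _).trans (one_mul _))).trans ((fMag S i).p_of _)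
    rw [Wire.map_act h1, k1, Wire.map_ract h1, h2, Wire.rr, act_mul, e1]
    subst e
    exact Prod.ext (Prod.ext (mul_one _) rfl) (congrArg ((fMag S i).mF _) (mul_one _))
  refine ⟨⟨?_, fun y => ?_⟩, ?_⟩
  · rintro ⟨a, b, x⟩ ⟨a', b', x'⟩ e
    have e1 := (k6 _ _ rfl).symm.trans ((congrArg s e).trans (k6 _ _ rfl))
    simp only [Prod.mk.injEq] at e1
    obtain ⟨⟨e1, rfl⟩, e2⟩ := e1
    rw [e1] at e2
    have e3 := inv_injective (((fMag S i).mF _).injective e2)
    rw [e3] at e1
    rw [mul_right_cancel e1, ← k1 b, ← k1 b',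
      (fMag S i).coc.dn_inj (((fMag S i).mF _).injective e3)]
  · obtain ⟨⟨⟨γ, x⟩, v⟩, rfl⟩ : ∃ m, eps S (ef S i) m = y := ⟨_, h3 y⟩
    obtain ⟨v, rfl⟩ := ((fMag S i).mF γ).surjective v
    obtain ⟨β, e⟩ := ((fMag S i).mF ((fMag S i).l (1, x))).surjective v⁻¹
    refine ⟨(γ * (fMag S i).coc.p v⁻¹, (fMag S i).coc.ph ((fMag S i).coc.up β), x),
      LeftInverse.injective h3 ?_⟩
    rw [k4, k6 _ v⁻¹ (by rw [k5, ← e]; rfl), mul_inv_cancel_right, inv_inv]
  · have : (lift fun t : StructureGroup S × X => canonicalMap S (act S t.1 (i t.2))) =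
        (fMag S i).coc.ph.comp (fMag S i).io := FreeGroup.ext_hom _ _ fun t => by
      rw [lift_apply_of, MonoidHom.comp_apply, Mag.io, lift_apply_of]
      exact ((fMag S i).p_of t).symm
    rw [this]
    exact (bijective_iff_has_inverse.2 ⟨Wire.hom h1, k5, k1⟩).comp (fMag S i).io_bij

end Pool.Agent.P.MP_f0defb_al
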