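import Pool.Agent.P.MP_f0defb_al.Defs

namespace Pool.Agent.P.MP_f0defb_al

universe u

open Function

/-- inverse of `λ_x` -/
noncomputable def Solution.lamInv {Y : Type u} (S : Solution Y) (x y : Y) : Y :=
  (Equiv.ofBijective _ (S.lam_bijective x)).symm y

/-- inverse of `ρ_y` -/
noncomputable def Solution.rhoInv {Y : Type u} (S : Solution Y) (x y : Y) : Y :=
  (Equiv.ofBijective _ (S.rho_bijective y)).symm x

theorem Solution.lam_lamInv {Y : Type u} (S : Solution Y) (x y : Y) :
    (S.r (x, S.lamInv x y)).1 = y :=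
  (Equiv.ofBijective _ (S.lam_bijective x)).apply_symm_apply y

theorem Solution.lamInv_lam {Y : Type u} (S : Solution Y) (x y : Y) :
    S.lamInv x (S.r (x, y)).1 = y :=
  (Equiv.ofBijective _ (S.lam_bijective x)).symm_apply_apply y

theorem Solution.rho_rhoInv {Y : Type u} (S : Solution Y) (x y : Y) :
    (S.r (S.rhoInv x y, y)).2 = x :=
  (Equiv.ofBijective _ (S.rho_bijective y)).apply_symm_apply x

theorem Solution.rhoInv_rho {Y : Type u} (S : Solution Y) (x y : Y) :
    S.rhoInv (S.r (x, y)).2 y = x :=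
  (Equiv.ofBijective _ (S.rho_bijective y)).symm_apply_apply x

theorem IsMorphism.map_r {Y Z : Type u} {S : Solution Y} {T : Solution Z} {f : Y → Z}
    (h : IsMorphism S T f) (x y : Y) :
    T.r (f x, f y) = (f (S.r (x, y)).1, f (S.r (x, y)).2) :=
  (congrFun h (x, y)).symm

theorem IsMorphism.map_lamInv {Y Z : Type u} {S : Solution Y} {T : Solution Z} {f : Y → Z}
    (h : IsMorphism S T f) (x y : Y) : f (S.lamInv x y) = T.lamInv (f x) (f y) := by
  have h1 := h.map_r x (S.lamInv x y)
  rw [S.lam_lamInv] at h1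
  have h2 := T.lamInv_lam (f x) (f (S.lamInv x y))
  rw [h1] at h2
  exact h2.symm

theorem IsMorphism.map_rhoInv {Y Z : Type u} {S : Solution Y} {T : Solution Z} {f : Y → Z}
    (h : IsMorphism S T f) (x y : Y) : f (S.rhoInv x y) = T.rhoInv (f x) (f y) := by
  have h1 := h.map_r (S.rhoInv x y) y
  rw [S.rho_rhoInv] at h1
  have h2 := T.rhoInv_rho (f (S.rhoInv x y)) (f y)
  rw [h1] at h2
  exact h2.symm

/-- terms in the four operations -/
inductive Tm (X : Type u) : Type u
  | var : X → Tm X
  | lam : Tm X → Tm X → Tm X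
  | rho : Tm X → Tm X → Tm X
  | lamInv : Tm X → Tm X → Tm X
  | rhoInv : Tm X → Tm X → Tm X

/-- evaluation of a term in a solution -/
noncomputable def Tm.ev {X Z : Type u} (T : Solution Z) (φ : X → Z) : Tm X → Z
  | .var x => φ x
  | .lam a b => (T.r (a.ev T φ, b.ev T φ)).1
  | .rho a b => (T.r (a.ev T φ, b.ev T φ)).2
  | .lamInv a b => T.lamInv (a.ev T φ) (b.ev T φ)
  | .rhoInv a b => T.rhoInv (a.ev T φ) (b.ev T φ)

/-- terms with the same value in every solution -/
def tmSetoid (X : Type u) : Setoid (Tm X) where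
  r a b := ∀ (Z : Type u) (T : Solution Z) (φ : X → Z), a.ev T φ = b.ev T φ
  iseqv := ⟨fun _ _ _ _ => rfl, fun h Z T φ => (h Z T φ).symm,
    fun h k Z T φ => (h Z T φ).trans (k Z T φ)⟩

/-- carrier of the free solution -/
def FSol (X : Type u) : Type u := Quotient (tmSetoid X)

/-- evaluation on the quotient -/
noncomputable def FSol.ev {X Z : Type u} (T : Solution Z) (φ : X → Z) : FSol X → Z :=
  Quotient.lift (Tm.ev T φ) fun _ _ h => h Z T φ

theorem FSol.ext {X : Type u} {a b : FSol X}
    (h : ∀ (Z : Type u) (T : Solution Z) (φ : X → Z), a.ev T φ = b.ev T φ) : a = b := by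
  induction a using Quotient.inductionOn with
  | _ a =>
    induction b using Quotient.inductionOn with
    | _ b => exact Quotient.sound h

/-- the four operations on the quotient -/
def FSol.lam {X : Type u} : FSol X → FSol X → FSol X :=
  Quotient.map₂ Tm.lam fun _ _ h _ _ k Z T φ => by simp only [Tm.ev, h Z T φ, k Z T φ]

/-- the four operations on the quotient -/
def FSol.rho {X : Type u} : FSol X → FSol X → FSol X :=
  Quotient.map₂ Tm.rho fun _ _ h _ _ k Z T φ => by simp only [Tm.ev, h Z T φ, k Z T φ]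

/-- the four operations on the quotient -/
def FSol.lamInv {X : Type u} : FSol X → FSol X → FSol X :=
  Quotient.map₂ Tm.lamInv fun _ _ h _ _ k Z T φ => by simp only [Tm.ev, h Z T φ, k Z T φ]

/-- the four operations on the quotient -/
def FSol.rhoInv {X : Type u} : FSol X → FSol X → FSol X :=
  Quotient.map₂ Tm.rhoInv fun _ _ h _ _ k Z T φ => by simp only [Tm.ev, h Z T φ, k Z T φ]

theorem FSol.ev_lam {X Z : Type u} (T : Solution Z) (φ : X → Z) (a b : FSol X) :
    (a.lam b).ev T φ = (T.r (a.ev T φ, b.ev T φ)).1 := by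
  induction a using Quotient.inductionOn
  induction b using Quotient.inductionOn
  rfl

theorem FSol.ev_rho {X Z : Type u} (T : Solution Z) (φ : X → Z) (a b : FSol X) :
    (a.rho b).ev T φ = (T.r (a.ev T φ, b.ev T φ)).2 := by
  induction a using Quotient.inductionOn
  induction b using Quotient.inductionOn
  rfl

theorem FSol.ev_lamInv {X Z : Type u} (T : Solution Z) (φ : X → Z) (a b : FSol X) :
    (a.lamInv b).ev T φ = T.lamInv (a.ev T φ) (b.ev T φ) := by
  induction a using Quotient.inductionOn
  induction b using Quotient.inductionOn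
  rfl

theorem FSol.ev_rhoInv {X Z : Type u} (T : Solution Z) (φ : X → Z) (a b : FSol X) :
    (a.rhoInv b).ev T φ = T.rhoInv (a.ev T φ) (b.ev T φ) := by
  induction a using Quotient.inductionOn
  induction b using Quotient.inductionOn
  rfl

/-- the free solution -/
def freeSol (X : Type u) : Solution (FSol X) where
  r p := (p.1.lam p.2, p.1.rho p.2)
  braid := by
    funext t
    obtain ⟨a, b, c⟩ := t
    have key : ∀ (Z : Type u) (T : Solution Z) (φ : X → Z), _ :=
      fun Z T φ => congrFun T.braid (a.ev T φ, b.ev T φ, c.ev T φ)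
    simp only [comp, r12, r23, Prod.ext_iff] at key ⊢
    refine ⟨FSol.ext fun Z T φ => ?_, FSol.ext fun Z T φ => ?_, FSol.ext fun Z T φ => ?_⟩
    · simpa only [FSol.ev_lam, FSol.ev_rho] using (key Z T φ).1
    · simpa only [FSol.ev_lam, FSol.ev_rho] using (key Z T φ).2.1
    · simpa only [FSol.ev_lam, FSol.ev_rho] using (key Z T φ).2.2
  lam_bijective x := by
    refine bijective_iff_has_inverse.2 ⟨fun y => x.lamInv y, fun y => ?_, fun y => ?_⟩
    · exact FSol.ext fun Z T φ => by simp only [FSol.ev_lam, FSol.ev_lamInv, T.lamInv_lam]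
    · exact FSol.ext fun Z T φ => by simp only [FSol.ev_lam, FSol.ev_lamInv, T.lam_lamInv]
  rho_bijective y := by
    refine bijective_iff_has_inverse.2 ⟨fun x => x.rhoInv y, fun x => ?_, fun x => ?_⟩
    · exact FSol.ext fun Z T φ => by simp only [FSol.ev_rho, FSol.ev_rhoInv, T.rhoInv_rho]
    · exact FSol.ext fun Z T φ => by simp only [FSol.ev_rho, FSol.ev_rhoInv, T.rho_rhoInv]

theorem freeSol_lamInv {X : Type u} (a b : FSol X) : (freeSol X).lamInv a b = a.lamInv b := by
  have h : ((freeSol X).r (a, a.lamInv b)).1 = b :=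
    FSol.ext fun Z T φ => by
      change (a.lam (a.lamInv b)).ev T φ = _
      simp only [FSol.ev_lam, FSol.ev_lamInv, T.lam_lamInv]
  have h2 := (freeSol X).lamInv_lam a (a.lamInv b)
  rwa [h] at h2

theorem freeSol_rhoInv {X : Type u} (a b : FSol X) : (freeSol X).rhoInv a b = a.rhoInv b := by
  have h : ((freeSol X).r (a.rhoInv b, b)).2 = a :=
    FSol.ext fun Z T φ => by
      change ((a.rhoInv b).rho b).ev T φ = _
      simp only [FSol.ev_rho, FSol.ev_rhoInv, T.rho_rhoInv]
  have h2 := (freeSol X).rhoInv_rho (a.rhoInv b) b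
  rwa [h] at h2

theorem freeSol_isFree (X : Type u) :
    IsFree (freeSol X) (fun x => (Quotient.mk (tmSetoid X) (Tm.var x) : FSol X)) := by
  intro Z T φ
  refine ⟨FSol.ev T φ, ⟨?_, rfl⟩, ?_⟩
  · funext p
    obtain ⟨a, b⟩ := p
    exact Prod.ext (FSol.ev_lam T φ a b) (FSol.ev_rho T φ a b)
  · rintro f ⟨hf, hi⟩
    funext a
    induction a using Quotient.inductionOn with
    | _ a =>
      change f (Quotient.mk (tmSetoid X) a) = a.ev T φ
      induction a with
      | var x => exact congrFun hi x
      | lam a b iha ihb =>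
        have := congrArg Prod.fst (hf.map_r (Quotient.mk _ a) (Quotient.mk _ b))
        rw [iha, ihb] at this
        exact this.symm
      | rho a b iha ihb =>
        have := congrArg Prod.snd (hf.map_r (Quotient.mk _ a) (Quotient.mk _ b))
        rw [iha, ihb] at this
        exact this.symm
      | lamInv a b iha ihb =>
        have := hf.map_lamInv (Quotient.mk _ a) (Quotient.mk _ b)
        rw [iha, ihb, freeSol_lamInv] at this
        exact this
      | rhoInv a b iha ihb =>
        have := hf.map_rhoInv (Quotient.mk _ a) (Quotient.mk _ b)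
        rw [iha, ihb, freeSol_rhoInv] at this
        exact this

/-- the permutation solution `r (a, b) = (b, not a)` on two points -/
def flipSol : Solution (ULift.{u} Bool) where
  r p := (p.2, ⟨!p.1.down⟩)
  braid := by
    funext t
    rfl
  lam_bijective _ := bijective_id
  rho_bijective _ := by
    refine bijective_iff_has_inverse.2 ⟨fun x => ⟨!x.down⟩, fun x => ?_, fun x => ?_⟩ <;> simp

theorem canonicalMap_rel {Y : Type u} (S : Solution Y) (x y : Y) :
    canonicalMap S x * canonicalMap S y =
      canonicalMap S (S.r (x, y)).1 * canonicalMap S (S.r (x, y)).2 := by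
  have h : PresentedGroup.mk (relators S) (FreeGroup.of x * FreeGroup.of y *
      (FreeGroup.of (S.r (x, y)).1 * FreeGroup.of (S.r (x, y)).2)⁻¹) = 1 :=
    PresentedGroup.one_of_mem ⟨x, y, rfl⟩
  rw [map_mul, map_inv, mul_inv_eq_one, map_mul, map_mul] at h
  exact h

theorem not_injective {X F : Type u} [Nonempty X] (S : Solution F) (i : X → F)
    (h : IsFree S i) : ¬ Injective (canonicalMap S) := by
  intro hinj
  obtain ⟨x₀⟩ := ‹Nonempty X›
  obtain ⟨f, ⟨hf, -⟩, -⟩ := h (ULift.{u} Bool) flipSol fun _ => ⟨true⟩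
  have h1 := canonicalMap_rel S (i x₀) (S.lamInv (i x₀) (i x₀))
  rw [S.lam_lamInv] at h1
  have h2 := hinj (mul_left_cancel h1)
  have h3 := hf.map_r (i x₀) (S.lamInv (i x₀) (i x₀))
  rw [S.lam_lamInv, ← h2] at h3
  have h4 : f (S.lamInv (i x₀) (i x₀)) = f (i x₀) := congrArg Prod.fst h3
  have h5 : (⟨!(f (i x₀)).down⟩ : ULift.{u} Bool) = f (S.lamInv (i x₀) (i x₀)) :=
    congrArg Prod.snd h3
  rw [h4] at h5
  have h6 := congrArg ULift.down h5
  simp at h6

end Pool.Agent.P.MP_f0defb_al
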