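import Pool.Agent.P.MP_f0defb_al.Proof

/-! The derived rack of a non-degenerate solution. -/

namespace Pool.Agent.P.MP_f0defb_al

universe u

open Function

namespace Solution

variable {Y : Type u} (S : Solution Y)

/-- `λ_x` as a permutation -/
noncomputable def lam (x : Y) : Equiv.Perm Y := Equiv.ofBijective _ (S.lam_bijective x)

/-- `ρ_y` as a permutation -/
noncomputable def rho (y : Y) : Equiv.Perm Y := Equiv.ofBijective _ (S.rho_bijective y)

theorem r_eq (x y : Y) : S.r (x, y) = (S.lam x y, S.rho y x) := rfl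

theorem yb (x y z : Y) : S.lam (S.lam x y) (S.lam (S.rho y x) z) = S.lam x (S.lam y z) ∧
    S.rho (S.lam (S.rho y x) z) (S.lam x y) = S.lam (S.rho (S.lam y z) x) (S.rho z y) ∧
    S.rho z (S.rho y x) = S.rho (S.rho z y) (S.rho (S.lam y z) x) := by
  have h := congrFun S.braid (x, y, z)
  simp only [comp, r12, r23, Prod.ext_iff] at h
  exact h

theorem yb1 (x y : Y) : S.lam (S.lam x y) * S.lam (S.rho y x) = S.lam x * S.lam y :=
  Equiv.ext fun z => (S.yb x y z).1

/-- the diagonal map -/
noncomputable def dg (x : Y) : Y := (S.lam x)⁻¹ x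

theorem lam_dg (x : Y) : S.lam x (S.dg x) = x := by simp [dg]

theorem dg_eq {x y : Y} (h : S.lam x y = x) : S.dg x = y := by
  rw [dg, Equiv.Perm.inv_eq_iff_eq, h]

theorem lam_kink {x y : Y} (h : S.lam x y = x) : S.lam (S.rho y x) = S.lam y := by
  have := S.yb1 x y
  rw [h] at this
  exact mul_left_cancel this

theorem dg_injective : Injective S.dg := fun x x' h => by
  have k : ∀ x, S.lam (S.dg x) (S.rho (S.dg (S.dg x)) (S.dg x)) = S.rho (S.dg x) x := fun x => by
    have := (S.yb x (S.dg x) (S.dg (S.dg x))).2.1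
    rw [S.lam_kink (S.lam_dg x), lam_dg, lam_dg, S.lam_kink (S.lam_dg x)] at this
    exact this.symm
  have k1 := k x
  rw [h, k x'] at k1
  exact ((S.rho _).injective k1).symm

theorem dg_surjective : Surjective S.dg := fun x => by
  obtain ⟨t, ht⟩ := (S.rho x).surjective x
  have := S.yb1 t x
  rw [ht] at this
  exact ⟨S.lam t x, S.dg_eq (by rw [mul_right_cancel this])⟩

theorem dg_lam (a b : Y) : S.dg (S.lam a b) = S.lam (S.rho b a) (S.dg b) :=
  S.dg_eq (by rw [(S.yb a b _).1, lam_dg])

theorem ap_inv (e : Equiv.Perm Y) (x : Y) : e (e⁻¹ x) = x := by simp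
theorem inv_ap (e : Equiv.Perm Y) (x : Y) : e⁻¹ (e x) = x := by simp

theorem sig_bijective (z : Y) : Bijective fun x => S.lam z (S.rho ((S.lam x)⁻¹ z) x) := by
  refine (S.lam z).bijective.comp (f := fun x => S.rho ((S.lam x)⁻¹ z) x)
    ⟨fun x x' h => ?_, fun d => ?_⟩
  · have k := S.dg_lam x ((S.lam x)⁻¹ z)
    have k' := S.dg_lam x' ((S.lam x')⁻¹ z)
    simp only [ap_inv] at k k' h
    rw [h, k'] at k
    rw [← S.dg_injective ((S.lam _).injective k)] at h
    exact (S.rho _).injective h
  · obtain ⟨b, hb⟩ := S.dg_surjective ((S.lam d)⁻¹ (S.dg z))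
    obtain ⟨a, ha⟩ := (S.rho b).surjective d
    have k := S.dg_lam a b
    rw [ha, hb, ap_inv] at k
    exact ⟨a, by simp [← S.dg_injective k, ha]⟩

/-- the derived operation: `σ_z x = λ_z ρ_y x` where `λ_x y = z` -/
noncomputable def sig (z : Y) : Equiv.Perm Y := Equiv.ofBijective _ (S.sig_bijective z)

theorem sig_lam (x y : Y) : S.sig (S.lam x y) x = S.lam (S.lam x y) (S.rho y x) := by
  simp [sig]

theorem lam_sig (a z x : Y) : S.lam a (S.sig z x) = S.sig (S.lam a z) (S.lam a x) := by
  obtain ⟨y, rfl⟩ := (S.lam x).surjective z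
  rw [sig_lam, ← (S.yb a x y).1, sig_lam, (S.yb a x y).2.1, (S.yb a x y).1,
    (S.yb a (S.lam x y) _).1]

theorem sig_sig (c b a : Y) : S.sig c (S.sig b a) = S.sig (S.sig c b) (S.sig c a) := by
  obtain ⟨y, rfl⟩ := (S.lam a).surjective b
  obtain ⟨z, rfl⟩ := ((S.lam y).trans (S.lam a)).surjective c
  obtain ⟨h1, h2, h3⟩ := S.yb a y z
  rw [Equiv.trans_apply]
  have e1 : S.sig (S.lam a (S.lam y z)) (S.lam a y) =
      S.lam (S.lam a (S.lam y z)) (S.lam (S.rho (S.lam y z) a) (S.rho z y)) := by
    rw [← lam_sig, sig_lam, (S.yb a _ _).1]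
  rw [e1, S.sig_lam a (S.lam y z), ← lam_sig, sig_lam, sig_lam, ← h3, ← h2, ← h1, ← lam_sig,
    sig_lam, (S.yb _ _ _).1]

end Solution

/-- the action of the structure group -/
noncomputable def act {Y : Type u} (S : Solution Y) : StructureGroup S →* Equiv.Perm Y :=
  PresentedGroup.toGroup (f := S.lam) (by
    rintro _ ⟨x, y, rfl⟩
    simp only [map_mul, map_inv, FreeGroup.lift_apply_of, mul_inv_eq_one]
    exact (S.yb1 x y).symm)

theorem act_of {Y : Type u} (S : Solution Y) (y : Y) : act S (canonicalMap S y) = S.lam y :=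
  PresentedGroup.toGroup.of _

theorem act_sig {Y : Type u} (S : Solution Y) (γ : StructureGroup S) (z x : Y) :
    act S γ (S.sig z x) = S.sig (act S γ z) (act S γ x) := by
  have h : ∀ γ ∈ Subgroup.closure (Set.range (canonicalMap S)), ∀ z x,
      act S γ (S.sig z x) = S.sig (act S γ z) (act S γ x) := fun γ hγ => by
    induction hγ using Subgroup.closure_induction with
    | mem _ h =>
      obtain ⟨y, rfl⟩ := h
      rw [act_of]
      exact S.lam_sig y
    | one => simp
    | mul a b _ _ ha hb => simp [ha, hb]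
    | inv a _ ha =>
      intro z x
      rw [map_inv, Equiv.Perm.inv_eq_iff_eq, ha]
      simp
  exact h γ ((PresentedGroup.closure_range_of _).symm ▸ Subgroup.mem_top γ) z x

/-- centralisers of generators of a free group -/
theorem mem_zpowers_of_comm {α : Type u} (t : α) (w : FreeGroup α)
    (h : FreeGroup.of t * w = w * FreeGroup.of t) : ∃ n : ℤ, w = FreeGroup.of t ^ n := by
  classical
  induction hn : w.toWord.length generalizing w with
  | zero =>
    exact ⟨0, FreeGroup.toWord_eq_nil_iff.1 (List.length_eq_zero_iff.1 hn)⟩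
  | succ n ih =>
    obtain ⟨x, l, e⟩ := List.exists_cons_of_length_eq_add_one hn
    have k : (FreeGroup.of t * w).toWord =
        if t = x.1 ∧ true = !x.2 then l else (t, true) :: x :: l := by
      rw [FreeGroup.toWord_mul, FreeGroup.toWord_of, List.singleton_append, FreeGroup.reduce.cons,
        FreeGroup.reduce_toWord, e]
    split_ifs at k with c
    · obtain ⟨m, hm⟩ := ih (FreeGroup.of t * w) (by rw [mul_assoc, h]) (by simpa [k, e] using hn)
      exact ⟨m - 1, by rw [sub_eq_neg_add, zpow_add, ← hm]; simp⟩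
    · have s := FreeGroup.toWord_mul_sublist w (FreeGroup.of t)
      rw [← h, k, e, FreeGroup.toWord_of] at s
      have s' := s.eq_of_length (by simp)
      have a : ∀ l : List (α × Bool), (t, true) :: l = l ++ [(t, true)] →
          l = List.replicate l.length (t, true) := fun l => by
        induction l with
        | nil => simp
        | cons y l ih =>
          intro q
          obtain ⟨rfl, q⟩ := List.cons.inj q
          rw [List.length_cons, List.replicate_succ, ← ih q]
      refine ⟨((n + 1 : ℕ) : ℤ), FreeGroup.toWord_injective ?_⟩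
      rw [zpow_natCast, FreeGroup.toWord_of_pow, ← hn, e]
      exact a _ s'

end Pool.Agent.P.MP_f0defb_al
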