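import Pool.Agent.P.MP_f0defb_al.Lev
import Pool.Agent.P.MP_f0defb_al.FreeP

/-! Finite levels separate the letters. -/

namespace Pool.Agent.P.MP_f0defb_al

universe u

open Function Set
open FreeGroup (of lift map lift_apply_of)
open Subgroup (closure subset_closure closure_mono closure_le)

theorem fin_supp {G ι : Type u} [Group G] (l : ι → G) {T : Set ι} {V : Set G} (hV : V.Finite)
    (h : V ⊆ closure (l '' T)) : ∃ U ⊆ T, U.Finite ∧ V ⊆ closure (l '' U) := by
  have k : ∀ g ∈ closure (l '' T), ∃ U ⊆ T, U.Finite ∧ g ∈ closure (l '' U) := fun g hg => by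
    induction hg using Subgroup.closure_induction with
    | mem _ h =>
      obtain ⟨t, ht, rfl⟩ := h
      exact ⟨{t}, singleton_subset_iff.2 ht, finite_singleton t, subset_closure ⟨t, rfl, rfl⟩⟩
    | one => exact ⟨∅, empty_subset _, finite_empty, one_mem _⟩
    | mul a b _ _ ha hb =>
      obtain ⟨U, h1, h2, h3⟩ := ha
      obtain ⟨U', k1, k2, k3⟩ := hb
      exact ⟨U ∪ U', union_subset h1 k1, h2.union k2,
        mul_mem (closure_mono (image_mono subset_union_left) h3)
          (closure_mono (image_mono subset_union_right) k3)⟩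
    | inv a _ ha => exact ha.imp fun U h => ⟨h.1, h.2.1, inv_mem h.2.2⟩
  choose! U h1 h2 h3 using k
  exact ⟨⋃ g ∈ V, U g, iUnion₂_subset fun g hg => h1 g (h hg), hV.biUnion fun g hg => h2 g (h hg),
    fun g hg => closure_mono (image_mono (subset_biUnion_of_mem hg)) (h3 g (h hg))⟩

section

variable {G X : Type u} [Group G]

/-- a finite quotient of the cocycle on the words -/
structure Lev (p : ℕ) (M : Mag G (G × X)) : Type (u + 1) where
  H : Type u
  A : Type u
  [gH : Group H]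
  [gA : Group A]
  K : Coc H A
  m : M.coc.Hom K
  card : ∃ k, Nat.card A = p ^ k
  mp : IsMultiperm K.wire.sol

attribute [instance] Lev.gH Lev.gA

variable {p : ℕ} {M : Mag G (G × X)} (hp : Bijective M.coc.ph)
  (hm : ∀ h t, M.mS h t = (h * t.1, t.2))

namespace Lev

variable (L : Lev p M)

/-- the map on the group -/
noncomputable def th : G →* L.K.Circ :=
  L.m.circ.comp (MulEquiv.ofBijective M.coc.ph hp).symm.toMonoidHom

theorem th_ph (z : M.coc.Circ) : L.th hp (M.coc.ph z) = L.m.circ z :=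
  congrArg L.m.circ ((MulEquiv.ofBijective M.coc.ph hp).symm_apply_apply z)

theorem th_p (a : FreeGroup (G × X)) : L.th hp (M.coc.p a) = L.K.up (L.m.f a) :=
  L.th_ph hp (M.coc.up a)

theorem ph_th (g : G) : L.K.ph (L.th hp g) = L.m.e g := by
  obtain ⟨z, rfl⟩ := hp.2 g
  rw [th_ph, M.coc.ph_eq, ← L.m.coc]
  rfl

/-- the map on the letters -/
noncomputable def ps (t : G × X) : L.K.Circ × L.A := (L.th hp t.1, L.m.f (of (1, t.2)))

theorem f_m (h : G) (a : FreeGroup (G × X)) :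
    L.m.f (M.mF h a) = L.K.mA (L.K.ph (L.th hp h)) (L.m.f a) := by
  rw [ph_th]
  exact L.m.equi h a

include hm

theorem ps_m (h : G) (t : G × X) : L.ps hp (M.mS h t) = L.K.mag.mS (L.th hp h) (L.ps hp t) := by
  rw [hm]
  exact Prod.ext (map_mul _ _ _) rfl

theorem f_of (t : G × X) : L.m.f (of t) = L.K.q (of (L.ps hp t)) := by
  rw [Coc.q, lift_apply_of, ps, ← f_m, M.mF_of, hm, mul_one]

theorem ps_l (t : G × X) : L.th hp (M.l t) = L.K.mag.l (L.ps hp t) := by
  rw [← M.p_of, th_p, L.f_of hp hm, L.K.q_p, Mag.p_of]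

/-- the map on the words -/
noncomputable def hom1 : M.coc.Hom L.K.mag.coc where
  e := L.th hp
  f := map (L.ps hp)
  equi h w := by
    change map _ (map _ w) = map _ (map _ w)
    rw [FreeGroup.map.comp, FreeGroup.map.comp]
    exact congrArg (map · w) (funext (L.ps_m hp hm h))
  coc a := (M.p_map L.K.mag _ _ (L.ps_m hp hm) (L.ps_l hp hm) a).symm

variable [hpp : Fact p.Prime]

omit hm in
theorem fin : Finite L.A := by
  obtain ⟨k, hk⟩ := L.card
  exact Nat.finite_of_card_ne_zero (hk ▸ pow_ne_zero k hpp.out.ne_zero)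

omit hm in
theorem finC : Finite L.K.Circ := have := L.fin; Finite.of_injective _ L.K.dn_inj

theorem exists_next {V : Set (FreeGroup (L.K.Circ × L.A))} (hV : V.Finite) : ∃ L' : Lev p M,
    ∀ a b, map (L.ps hp) a ∈ V → map (L.ps hp) b ∈ V →
      L'.th hp (lift M.l a) = L'.th hp (lift M.l b) → map (L.ps hp) a = map (L.ps hp) b := by
  have := L.fin
  have := L.finC
  obtain ⟨P, _, j, f, hj, hf⟩ := exists_sep p (hV.image fun w => L.K.mag.coc.dn (L.K.mag.io w))
  obtain ⟨k, hk⟩ := L.card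
  have hc : Nat.card (L.A × (L.K.Circ → P)) = p ^ (k + j * p ^ k) := by
    rw [Nat.card_prod, Nat.card_fun, L.K.card_circ, hj, hk, pow_add, pow_mul]
  have : Finite (L.A × (L.K.Circ → P)) :=
    Nat.finite_of_card_ne_zero (hc ▸ pow_ne_zero _ hpp.out.ne_zero)
  have := (IsPGroup.of_card hc).isNilpotent
  obtain ⟨n, hn⟩ := L.K.next_mp P
  let L' : Lev p M := ⟨_, _, L.K.next P, (L.K.nHom f).comp (L.hom1 hp hm), ⟨_, hc⟩,
    (Wire.mor (L.K.next P).wire L.K.wire ⟨L.K.ph, .fst _ _, fun _ _ => rfl, fun _ => rfl⟩ Prod.fst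
      (fun _ _ => rfl) (fun _ _ => rfl) fun _ => rfl).multiperm hn L.mp⟩
  have e : ∀ a, L'.th hp (lift M.l a) = (L.K.nHom f).circ (L.K.mag.io (map (L.ps hp) a)) :=
    DFunLike.congr_fun (f := (L'.th hp).comp (lift M.l))
      (g := ((L.K.nHom f).circ.comp L.K.mag.io).comp (map (L.ps hp)))
      (FreeGroup.ext_hom _ _ fun t => by
        simp only [MonoidHom.comp_apply, lift_apply_of, FreeGroup.map.of, Mag.io]
        rw [← M.p_of, th_p]
        rfl)
  refine ⟨L', fun a b ha hb h => L.K.mag.io_bij.1 (L.K.mag.coc.dn_inj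
    (hf ⟨_, ha, rfl⟩ ⟨_, hb, rfl⟩ ?_))⟩
  rw [e, e] at h
  have := congrFun (congrArg Prod.snd ((L.K.next P).up_inj h)) 1
  change f (L.K.mag.mF 1 _) = f (L.K.mag.mF 1 _) at this
  rwa [map_one] at this

end Lev

variable (p) in
/-- the levels separate the finite subsets of `T` -/
def Sep (T : Set (G × X)) : Prop := ∀ U ⊆ T, U.Finite → ∃ L : Lev p M, InjOn (L.ps hp) U

variable (M) in
/-- the letters over the subgroup generated by the labels of `T` -/
def nb (T : Set (G × X)) : Set (G × X) := {t | t.1 ∈ closure (M.l '' T)}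

variable (M) in
/-- the diagonal -/
def dia (t : G × X) : G × X := M.mS (M.l t)⁻¹ t

theorem lift_eq : lift M.l = M.coc.ph.comp M.io := FreeGroup.ext_hom _ _ fun t => by
  rw [lift_apply_of, MonoidHom.comp_apply, Mag.io, lift_apply_of]
  exact (M.p_of t).symm

include hp in
theorem lift_inj : Injective (lift M.l) := by
  rw [lift_eq]
  exact hp.1.comp M.io_bij.1

include hm

theorem Sep.pre {T : Set (G × X)} (h : Sep p hp T) : Sep p hp (dia M ⁻¹' T) := by
  intro U hU hf
  obtain ⟨L, hL⟩ := h (dia M '' U) (image_subset_iff.2 hU) (hf.image _)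
  refine ⟨L, fun a ha b hb e => LeftInverse.injective M.hD (hL ⟨a, ha, rfl⟩ ⟨b, hb, rfl⟩ ?_)⟩
  simp only [dia, L.ps_m hp hm, map_inv (L.th hp), L.ps_l hp hm, e]

variable [hpp : Fact p.Prime] [Nonempty X]

theorem Sep.th {T : Set (G × X)} (h : Sep p hp T) {V : Set G} (hV : V.Finite)
    (hT : V ⊆ closure (M.l '' T)) : ∃ L : Lev p M, InjOn (L.th hp) V := by
  obtain ⟨U, h1, h2, h3⟩ := fin_supp M.l hV hT
  obtain ⟨L, hL⟩ := h U h1 h2
  obtain ⟨L', hL'⟩ := L.exists_next hp hm
    ((hV.preimage (lift_inj hp).injOn).image (map (L.ps hp)))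
  have e : closure (M.l '' U) = (closure (of '' U)).map (lift M.l) := by
    rw [MonoidHom.map_closure, image_image]
    simp only [lift_apply_of]
  have k : EqOn ((map (invFunOn (L.ps hp) U)).comp (map (L.ps hp))) (MonoidHom.id _)
      (closure (of '' U)) := MonoidHom.eqOn_closure (by
    rintro _ ⟨t, ht, rfl⟩
    simp [hL.leftInvOn_invFunOn ht])
  refine ⟨L', fun a ha b hb h => ?_⟩
  obtain ⟨a, ka, rfl⟩ := e.le (h3 ha)
  obtain ⟨b, kb, rfl⟩ := e.le (h3 hb)
  have := hL' a b ⟨a, ha, rfl⟩ ⟨b, hb, rfl⟩ h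
  exact congrArg _ ((k ka).symm.trans ((congrArg _ this).trans (k kb)))

theorem Sep.over {T : Set (G × X)} (h : Sep p hp T) (h1 : ∀ x, (1, x) ∈ T) :
    Sep p hp (nb M T) := by
  intro U hU hf
  obtain ⟨L, hL⟩ := h.th hp hm ((hf.image Prod.fst).union (hf.image fun t => M.l (1, t.2))) (by
    rintro _ (⟨t, ht, rfl⟩ | ⟨t, -, rfl⟩)
    exacts [hU ht, subset_closure ⟨_, h1 _, rfl⟩])
  refine ⟨L, fun a ha b hb e => Prod.ext
    (hL (.inl ⟨a, ha, rfl⟩) (.inl ⟨b, hb, rfl⟩) (congrArg Prod.fst e)) ?_⟩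
  have : M.l (1, a.2) = M.l (1, b.2) := hL (.inr ⟨a, ha, rfl⟩) (.inr ⟨b, hb, rfl⟩) (by
    simp only [← M.p_of, L.th_p]
    exact congrArg _ (congrArg Prod.snd e))
  exact (Prod.ext_iff.1 (FreeGroup.of_injective
    (lift_inj hp (lift_apply_of.trans (this.trans lift_apply_of.symm))))).2

omit [Nonempty X] in
theorem sep_base : Sep p hp {t : G × X | t.1 = 1} := by
  classical
  intro U hU hf
  have := hf.to_subtype
  let K : Coc PUnit (U → Multiplicative (ZMod p)) := ⟨1, fun _ => 1, fun _ _ => rfl⟩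
  let f : FreeGroup (G × X) →* U → Multiplicative (ZMod p) :=
    lift fun t s => if s.1.2 = t.2 then .ofAdd 1 else 1
  obtain ⟨n, hn⟩ := K.ret ⊤ (fun _ _ _ => trivial) fun _ _ _ => rfl
  refine ⟨⟨_, _, K, ⟨1, f, fun h => DFunLike.congr_fun (f := f.comp (M.mF h).toMonoidHom) (g := f)
    (FreeGroup.ext_hom _ _ fun t => ?_), fun _ => rfl⟩, ⟨Nat.card U, ?_⟩, n,
      fun a b => hn a b trivial⟩, fun a ha b hb e => Prod.ext ((hU ha).trans (hU hb).symm) ?_⟩
  · change f (of (M.mS h t)) = _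
    rw [hm, lift_apply_of, lift_apply_of]
  · rw [Nat.card_fun, Nat.card_congr Multiplicative.toAdd, Nat.card_zmod]
  · have := congrFun (congrArg Prod.snd e) ⟨a, ha⟩
    change f (of _) _ = f (of _) _ at this
    rw [lift_apply_of, lift_apply_of, if_pos rfl] at this
    by_contra hc
    rw [if_neg hc] at this
    exact one_ne_zero (ofAdd_eq_one.1 this)

theorem sep_univ (hg : ∀ Γ : Subgroup G, (∀ t : G × X, t.1 ∈ Γ → M.l t ∈ Γ ∧ M.l (M.E t) ∈ Γ) →
    ∀ g, g ∈ Γ) : Sep p hp univ := by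
  have mono : ∀ {T T' : Set (G × X)}, T ⊆ T' → nb M T ⊆ nb M T' :=
    fun h _ k => closure_mono (image_mono h) k
  obtain ⟨T, h0, hT⟩ := zorn_subset_nonempty {T | Sep p hp T ∧ T ⊆ nb M T}
    (fun c hc hch hne => ⟨⋃ T ∈ c, T, ⟨fun U hU hf => by
      obtain ⟨T, h1, h2⟩ := hch.directedOn.exists_mem_subset_of_finset_subset_biUnion
        (f := fun T => T) hne (s := hf.toFinset) (by simpa using hU)
      exact (hc h1).1 U (by simpa using h2) hf,
      iUnion₂_subset fun T h => (hc h).2.trans (mono (subset_biUnion_of_mem (u := fun T => T) h))⟩,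
      fun T h => subset_biUnion_of_mem (u := fun T => T) h⟩)
    _ ⟨sep_base hp hm, fun t (h : t.1 = 1) => by
      change t.1 ∈ Subgroup.closure _
      rw [h]
      exact one_mem _⟩
  have h1 := hT.1.1.over hp hm fun x => h0 rfl
  have h2 : nb M T ⊆ T := hT.2 ⟨h1, mono hT.1.2⟩ hT.1.2
  have h3 : T ⊆ dia M ⁻¹' nb M T := fun t h => by
    change (M.mS _ t).1 ∈ Subgroup.closure _
    rw [hm]
    exact mul_mem (inv_mem (subset_closure ⟨t, h, rfl⟩)) (hT.1.2 h)
  have h4 : dia M ⁻¹' nb M T ⊆ T := hT.2 ⟨h1.pre hp hm, fun t h => by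
    have k := mono h3 h
    change (M.mS _ t).1 ∈ Subgroup.closure _ at k
    rw [hm] at k
    exact (Subgroup.mul_mem_cancel_left _
      (inv_mem (Subgroup.subset_closure (mem_image_of_mem _ h)))).1 k⟩ h3
  have h5 := hg (closure (M.l '' T)) fun t h => ⟨subset_closure ⟨t, h2 h, rfl⟩,
    subset_closure ⟨_, h4 (by
      rwa [mem_preimage, dia, map_inv, Equiv.Perm.inv_eq_iff_eq.2 (M.hE t).symm]), rfl⟩⟩
  exact fun U _ => h1 U fun t _ => h5 t.1

end

theorem Wire.mp {H A Y : Type u} [Group H] [Group A] (W : Wire H A Y)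
    (h : IsMultiperm W.toCoc.wire.sol) : IsMultiperm W.sol :=
  W.c_mor.multiperm (m := 1) (fun a b e z => ⟨by
    change W.mY _ _ = W.mY _ _
    rw [e], congrArg (W.rr · z) e⟩) h

theorem residually (p : ℕ) [Fact p.Prime] {X F : Type u} {S : Solution F} {i : X → F}
    (h : IsFree S i) {y y' : F} (hy : y ≠ y') : ∃ (Z : Type u) (T : Solution Z) (f : F → Z),
      (∃ k, Nat.card Z = p ^ k) ∧ IsMultiperm T ∧ IsMorphism S T f ∧ f y ≠ f y' ∧
      (canonicalMap S y ≠ canonicalMap S y' → Injective (canonicalMap T)) := by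
  obtain ⟨s, h1, -, h3⟩ : ∃ s, IsMorphism S (fMag S i).wire.sol s ∧ _ :=
    exists_sec (.id _) injective_id _ _ (fun _ => rfl) (fun _ => rfl) h
  have x := (s y).1.2
  have : Nonempty X := ⟨x⟩
  have hp : Bijective (fMag S i).coc.ph := (Bijective.of_comp_iff _ (fMag S i).io_bij).1 (by
    rw [← MonoidHom.coe_comp, ← lift_eq]
    exact (normal_form h).2)
  have hm : ∀ g t, (fMag S i).mS g t = (g * t.1, t.2) := fun _ _ => rfl
  obtain ⟨L, hL⟩ := sep_univ (p := p) hp hm (fun Γ k => gen_top h Γ (fun a ha x => (k (a, x) ha).1)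
    fun a ha x => by
      have := (k (a, x) ha).2
      change canonicalMap S (act S (canonicalMap S _ * a) (i x)) ∈ _ at this
      rw [← act_mul, act_of] at this
      exact lam_E S _ ▸ this)
    ({(s y).1, (s y').1} ∪ (fun a => ((fMag S i).coc.p a, x)) ''
      {(s y).2, (s y').2, (fMag S i).wire.c (s y), (fMag S i).wire.c (s y')}) (subset_univ _)
    (toFinite _)
  have key : ∀ a ∈ _, ∀ b ∈ _, L.m.f a = L.m.f b → (fMag S i).coc.p a = (fMag S i).coc.p b :=
    fun a ha b hb e => congrArg Prod.fst (hL (.inr ⟨a, ha, rfl⟩) (.inr ⟨b, hb, rfl⟩)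
      (Prod.ext (by simp only [Lev.ps, L.th_p, e]) rfl))
  by_cases hg : canonicalMap S y = canonicalMap S y'
  · let W := L.K.self.prod L.K.mag.mS (fun t => L.K.q (of t)) fun g t => L.K.q_m g (of t)
    obtain ⟨k, hk⟩ := L.card
    refine ⟨_, W.sol, (fun w => (L.ps hp w.1, L.m.f w.2)) ∘ s, ⟨k + k + k, ?_⟩, W.mp
      ((Wire.mor L.K.self.wire L.K.wire ⟨L.K.ph, .id _, fun _ _ => rfl, fun _ => rfl⟩ id
        (fun _ _ => rfl) (fun _ _ => rfl) fun _ => rfl).multiperm (m := 0) (fun _ _ e => e) L.mp),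
      h1.trans (Wire.mor (fMag S i).wire W ⟨L.th hp, L.m.f, L.f_m hp, fun a => (L.th_p hp a).symm⟩ _
        (fun g w => Prod.ext (L.ps_m hp hm g _) (L.f_m hp g _))
        (fun a w => Prod.ext rfl (map_mul L.m.f _ _)) fun w => ?_), fun e => hy ?_,
      fun k => (k hg).elim⟩
    · rw [Nat.card_prod, Nat.card_prod, L.K.card_circ, hk, pow_add, pow_add]
    · change _ * _ * _ = L.m.f (_ * _ * _)
      rw [map_mul, map_mul, map_inv, L.f_of hp hm]
    · rw [← h3 y, ← h3 y']
      refine congrArg _ (Prod.ext (hL (.inl (by simp)) (.inl (by simp)) (congrArg Prod.fst e))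
        ((fMag S i).coc.up_inj (hp.1 (key _ (by simp) _ (by simp) (congrArg Prod.snd e)))))
  · refine ⟨_, L.K.wire.sol, L.m.f ∘ (fMag S i).wire.c ∘ s, L.card, L.mp,
      (h1.trans (Wire.c_mor _)).trans (Wire.mor (fMag S i).coc.wire L.K.wire L.m _ L.m.equi
        (fun a w => ?_) fun _ => rfl), fun e => hg ?_, fun _ => L.K.wire_inj⟩
    · change L.m.f (_ * _ * _) = _ * _ * _
      rw [map_mul, map_mul, map_inv]
    · rw [← h3 y, ← h3 y', ← ef_p, ← ef_p]
      exact key _ (by simp) _ (by simp) e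

end Pool.Agent.P.MP_f0defb_al
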