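import Pool.Agent.P.MP_f0defb_al.Biq

/-! Solutions from a group with operators, a cocycle and an augmented rack. -/

namespace Pool.Agent.P.MP_f0defb_al

universe u

open Function

/-- an action as a homomorphism to the permutation group -/
def mkAct {H Y : Type u} [Group H] (f : H → Y → Y) (h1 : ∀ y, f 1 y = y)
    (hm : ∀ a b y, f (a * b) y = f a (f b y)) : H →* Equiv.Perm Y :=
  @MulAction.toPermHom H Y _ { smul := f, one_smul := h1, mul_smul := hm }

theorem act_mul {H Y : Type u} [Group H] (m : H →* Equiv.Perm Y) (a b : H) (y : Y) :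
    m a (m b y) = m (a * b) y := by simp

/-- a group `A` with an action of `H` and a cocycle -/
structure Coc (H A : Type u) [Group H] [Group A] where
  mA : H →* MulAut A
  p : A → H
  coc : ∀ a b, p (a * mA (p a) b) = p a * p b

namespace Coc

variable {H A : Type u} [Group H] [Group A] (K : Coc H A)

theorem p_one : K.p 1 = 1 := by simpa using K.coc 1 1

theorem mA_mul (a b : H) (x : A) : K.mA a (K.mA b x) = K.mA (a * b) x := by simp

theorem mA_one (x : A) : K.mA 1 x = x := by simp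

/-- the circle group -/
def Circ : Subgroup (A ⋊[K.mA] H) where
  carrier := {z | z.right = K.p z.left}
  one_mem' := K.p_one.symm
  mul_mem' := by
    intro z w (hz : _ = _) (hw : _ = _)
    change z.right * w.right = K.p (z.left * K.mA z.right w.left)
    rw [hz, hw, K.coc]
  inv_mem' := by
    intro z (hz : _ = _)
    change z.right⁻¹ = K.p (K.mA z.right⁻¹ z.left⁻¹)
    have := K.coc z.left (K.mA z.right⁻¹ z.left⁻¹)
    rw [mA_mul, ← hz, mul_inv_cancel, mA_one, mul_inv_cancel, p_one] at this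
    exact inv_eq_of_mul_eq_one_right this.symm

/-- an element of `A` in the circle group -/
def up (a : A) : K.Circ := ⟨⟨a, K.p a⟩, rfl⟩

/-- the underlying element of `A` -/
def dn (z : K.Circ) : A := z.1.left

/-- the cocycle as a homomorphism -/
def ph : K.Circ →* H := SemidirectProduct.rightHom.comp K.Circ.subtype

theorem ph_eq (z : K.Circ) : K.ph z = K.p (K.dn z) := z.2

theorem up_dn (z : K.Circ) : K.up (K.dn z) = z :=
  Subtype.ext (SemidirectProduct.ext rfl (K.ph_eq z).symm)

theorem dn_inj : Injective K.dn := LeftInverse.injective K.up_dn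

theorem up_inj : Injective K.up := LeftInverse.injective (g := K.dn) fun _ => rfl

theorem dn_mul (z w : K.Circ) : K.dn (z * w) = K.dn z * K.mA (K.p (K.dn z)) (K.dn w) := by
  rw [← ph_eq]
  rfl

theorem up_mul (a b : A) : K.up (a * K.mA (K.p a) b) = K.up a * K.up b := K.dn_inj rfl

theorem up_one : K.up 1 = 1 := K.dn_inj rfl

theorem card_circ : Nat.card K.Circ = Nat.card A :=
  Nat.card_congr ⟨K.dn, K.up, K.up_dn, fun _ => rfl⟩

end Coc

/-- an augmented rack over `A`, with operators -/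
structure Wire (H A Y : Type u) [Group H] [Group A] extends Coc H A where
  mY : H →* Equiv.Perm Y
  t : A →* Equiv.Perm Y
  c : Y → A
  c_t : ∀ a y, c (t a y) = a * c y * a⁻¹
  c_m : ∀ h y, c (mY h y) = mA h (c y)
  m_t : ∀ h a y, mY h (t a y) = t (mA h a) (mY h y)

namespace Wire

variable {H A Y : Type u} [Group H] [Group A] (W : Wire H A Y)

/-- the right action -/
def rr (β : A) (y : Y) : Y :=
  W.mY (W.p (W.mA (W.p (W.c y)) β))⁻¹ (W.t (W.mA (W.p (W.c y)) β)⁻¹ y)

theorem up_rr (β : A) (y : Y) :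
    W.up (W.mA (W.p (W.c y)) β) * W.up (W.c (W.rr β y)) = W.up (W.c y) * W.up β := by
  rw [← Coc.up_mul, ← Coc.up_mul, rr, W.c_m, W.c_t, Coc.mA_mul, mul_inv_cancel, Coc.mA_one]
  congr 1
  group

theorem p_rr (β : A) (y : Y) :
    W.p (W.mA (W.p (W.c y)) β) * W.p (W.c (W.rr β y)) = W.p (W.c y) * W.p β := by
  have := congrArg W.ph (W.up_rr β y)
  rwa [map_mul, map_mul] at this

theorem rr_mul (β β' : A) (y : Y) : W.rr β' (W.rr β y) = W.rr (β * W.mA (W.p β) β') y := by
  have e : W.mA (W.p (W.c y)) (β * W.mA (W.p β) β') = W.mA (W.p (W.c y)) β *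
      W.mA (W.p (W.mA (W.p (W.c y)) β)) (W.mA (W.p (W.c (W.rr β y))) β') := by
    rw [map_mul, Coc.mA_mul, Coc.mA_mul, p_rr]
  rw [rr.eq_1 W (β * _), e, W.coc, rr.eq_1 W β']
  generalize W.mA (W.p (W.c (W.rr β y))) β' = w'
  rw [rr]
  generalize W.mA (W.p (W.c y)) β = w
  rw [mul_inv_rev, mul_inv_rev, ← act_mul, ← act_mul, W.m_t (W.p w)⁻¹ (W.mA _ _)⁻¹, ← map_inv,
    Coc.mA_mul, inv_mul_cancel, Coc.mA_one]

theorem rr_one (y : Y) : W.rr 1 y = y := by simp [rr, Coc.p_one]

theorem rr_circ (z w : W.Circ) (y : Y) :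
    W.rr (W.dn w) (W.rr (W.dn z) y) = W.rr (W.dn (z * w)) y := by rw [rr_mul, Coc.dn_mul]

theorem rr_inv (z : W.Circ) (y : Y) : W.rr (W.dn z⁻¹) (W.rr (W.dn z) y) = y := by
  rw [rr_circ, mul_inv_cancel]
  exact W.rr_one y

/-- the braiding -/
def R (q : Y × Y) : Y × Y := (W.mY (W.p (W.c q.1)) q.2, W.rr (W.c q.2) q.1)

/-- coordinates in which the braiding is the braiding of the rack -/
def J (t : Y × Y × Y) : Y × Y × Y :=
  (t.1, W.mY (W.p (W.c t.1)) t.2.1, W.mY (W.p (W.c t.1) * W.p (W.c t.2.1)) t.2.2)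

theorem J_inj : Injective W.J := by
  rintro ⟨a, b, c⟩ ⟨a', b', c'⟩ h
  simp only [J, Prod.mk.injEq] at h
  obtain ⟨rfl, h1, h2⟩ := h
  obtain rfl := (W.mY _).injective h1
  rw [(W.mY _).injective h2]

theorem m_rr (x y : Y) : W.mY (W.p (W.c (W.mY (W.p (W.c x)) y))) (W.rr (W.c y) x) =
    W.t (W.c (W.mY (W.p (W.c x)) y))⁻¹ x := by
  rw [rr, W.c_m, act_mul, mul_inv_cancel]
  simp

theorem J12 (t : Y × Y × Y) : W.J (r12 W.R t) =
    ((W.J t).2.1, W.t (W.c (W.J t).2.1)⁻¹ (W.J t).1, (W.J t).2.2) := by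
  simp only [J, r12, R, m_rr]
  rw [W.c_m, p_rr]

theorem J23 (t : Y × Y × Y) : W.J (r23 W.R t) =
    ((W.J t).1, (W.J t).2.2, W.t (W.c (W.J t).2.2)⁻¹ (W.J t).2.1) := by
  simp only [J, r23, R, ← act_mul, m_rr]
  rw [W.m_t, map_inv, ← W.c_m]

/-- the solution -/
def sol : Solution Y where
  r := W.R
  braid := by
    funext t
    apply W.J_inj
    simp only [comp, J12, J23, W.c_t, act_mul]
    congr 4
    group
  lam_bijective a := (W.mY (W.p (W.c a))).bijective
  rho_bijective b := bijective_iff_has_inverse.2 ⟨W.rr (W.dn (W.up (W.c b))⁻¹),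
    W.rr_inv (W.up (W.c b)), fun y => by
      have := W.rr_inv (W.up (W.c b))⁻¹ y
      rwa [inv_inv] at this⟩

theorem lam_eq (x y : Y) : W.sol.lam x y = W.mY (W.p (W.c x)) y := rfl

theorem rho_eq (x y : Y) : W.sol.rho y x = W.rr (W.c y) x := rfl

theorem sig_eq (z x : Y) : W.sol.sig z x = W.t (W.c z)⁻¹ x := by
  obtain ⟨y, rfl⟩ := (W.sol.lam x).surjective z
  rw [Solution.sig_lam]
  exact W.m_rr x y

theorem up_rel (x y : Y) : W.up (W.c x) * W.up (W.c y) =
    W.up (W.c (W.sol.r (x, y)).1) * W.up (W.c (W.sol.r (x, y)).2) := by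
  rw [← W.up_rr, ← W.c_m]
  rfl

end Wire

/-- the group itself as an augmented rack -/
def Coc.wire {H A : Type u} [Group H] [Group A] (K : Coc H A) : Wire H A A where
  toCoc := K
  mY := (MulAut.toPerm A).comp K.mA
  t := (MulAut.toPerm A).comp MulAut.conj
  c := id
  c_t _ _ := rfl
  c_m _ _ := rfl
  m_t h a y := by
    change K.mA h (a * y * a⁻¹) = K.mA h a * K.mA h y * (K.mA h a)⁻¹
    rw [map_mul, map_mul, map_inv]

theorem Coc.wire_inj {H A : Type u} [Group H] [Group A] (K : Coc H A) :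
    Injective (canonicalMap K.wire.sol) := fun _ _ e => K.up_inj (can_eq K.wire.up_rel e)

theorem Wire.c_mor {H A Y : Type u} [Group H] [Group A] (W : Wire H A Y) :
    IsMorphism W.sol W.toCoc.wire.sol W.c := by
  funext q
  refine Prod.ext (W.c_m _ _) ?_
  change W.c (W.rr _ _) = _
  rw [Wire.rr, W.c_m, W.c_t]
  rfl

/-- the rack `S × A` -/
def Coc.prod {H A S : Type u} [Group H] [Group A] (K : Coc H A) (mS : H →* Equiv.Perm S)
    (j : S → A) (hj : ∀ h s, j (mS h s) = K.mA h (j s)) : Wire H A (S × A) where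
  toCoc := K
  mY := mkAct (fun h y => (mS h y.1, K.mA h y.2)) (by simp) (by simp)
  t := mkAct (fun a y => (y.1, a * y.2)) (by simp) (by simp [mul_assoc])
  c y := y.2 * j y.1 * y.2⁻¹
  c_t a y := by
    change a * y.2 * j y.1 * (a * y.2)⁻¹ = _
    group
  c_m h y := by
    change K.mA h y.2 * j (mS h y.1) * (K.mA h y.2)⁻¹ = _
    rw [map_mul, map_mul, map_inv, hj]
  m_t h a y := Prod.ext rfl (map_mul (K.mA h) _ _)

section mor

variable {F Z : Type u} {S : Solution F} {T : Solution Z} {f : F → Z}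

theorem IsMorphism.map_lam (h : IsMorphism S T f) (x y : F) :
    f (S.lam x y) = T.lam (f x) (f y) := (congrArg Prod.fst (h.map_r x y)).symm

theorem IsMorphism.map_rho (h : IsMorphism S T f) (x y : F) :
    f (S.rho y x) = T.rho (f y) (f x) := (congrArg Prod.snd (h.map_r x y)).symm

theorem IsMorphism.map_sig (h : IsMorphism S T f) (z x : F) :
    f (S.sig z x) = T.sig (f z) (f x) := by
  obtain ⟨y, rfl⟩ := (S.lam x).surjective z
  rw [S.sig_lam, h.map_lam, h.map_rho, h.map_lam, T.sig_lam]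

theorem IsMorphism.trans {Z' : Type u} {T' : Solution Z'} {f' : Z → Z'} (h : IsMorphism S T f)
    (h' : IsMorphism T T' f') : IsMorphism S T' (f' ∘ f) := by
  funext q
  have e := h'.map_r (f q.1) (f q.2)
  rw [h.map_r] at e
  exact e.symm

theorem gen_ind {Q : StructureGroup S → Prop} (h1 : ∀ y, Q (canonicalMap S y)) (h0 : Q 1)
    (h2 : ∀ a b, Q a → Q b → Q (a * b)) (h3 : ∀ a, Q a → Q a⁻¹) (γ : StructureGroup S) : Q γ := by
  have : γ ∈ Subgroup.closure (Set.range (canonicalMap S)) :=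
    (PresentedGroup.closure_range_of _).symm ▸ Subgroup.mem_top γ
  induction this using Subgroup.closure_induction with
  | mem _ h =>
    obtain ⟨y, rfl⟩ := h
    exact h1 y
  | one => exact h0
  | mul a b _ _ ha hb => exact h2 a b ha hb
  | inv a _ ha => exact h3 a ha

/-- the right action of the structure group -/
noncomputable def ract (S : Solution F) : StructureGroup S →* (Equiv.Perm F)ᵐᵒᵖ :=
  PresentedGroup.toGroup (f := fun y => MulOpposite.op (S.rho y)) (by
    rintro _ ⟨x, y, rfl⟩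
    simp only [map_mul, map_inv, FreeGroup.lift_apply_of, mul_inv_eq_one, ← MulOpposite.op_mul]
    exact congrArg _ (Equiv.ext fun z => (S.yb z x y).2.2))

theorem ract_of (S : Solution F) (y : F) : (ract S (canonicalMap S y)).unop = S.rho y :=
  congrArg MulOpposite.unop (PresentedGroup.toGroup.of _)

variable {H A Y : Type u} [Group H] [Group A] {W : Wire H A Y} {f : F → Y}

/-- the homomorphism induced on the structure group -/
def Wire.hom (h : IsMorphism S W.sol f) : StructureGroup S →* W.Circ :=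
  PresentedGroup.toGroup (f := fun y => W.up (W.c (f y))) (by
    rintro _ ⟨x, y, rfl⟩
    simp only [map_mul, map_inv, FreeGroup.lift_apply_of, mul_inv_eq_one]
    rw [W.up_rel, h.map_r])

theorem Wire.hom_of (h : IsMorphism S W.sol f) (y : F) :
    Wire.hom h (canonicalMap S y) = W.up (W.c (f y)) := PresentedGroup.toGroup.of _

theorem Wire.map_act (h : IsMorphism S W.sol f) (γ : StructureGroup S) :
    ∀ y, f (act S γ y) = W.mY (W.ph (Wire.hom h γ)) (f y) := by
  induction γ using gen_ind with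
  | h1 x =>
    intro y
    rw [act_of, h.map_lam, Wire.hom_of]
    rfl
  | h0 => simp
  | h2 a b ha hb => simp [ha, hb]
  | h3 a ha =>
    intro y
    rw [map_inv (Wire.hom h), map_inv W.ph, map_inv W.mY, Equiv.Perm.eq_inv_iff_eq, ← ha]
    simp

theorem Wire.map_ract (h : IsMorphism S W.sol f) (γ : StructureGroup S) :
    ∀ y, f ((ract S γ).unop y) = W.rr (W.dn (Wire.hom h γ)) (f y) := by
  induction γ using gen_ind with
  | h1 x =>
    intro y
    rw [ract_of, h.map_rho, Wire.hom_of]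
    rfl
  | h0 =>
    intro y
    rw [map_one, map_one]
    exact (W.rr_one _).symm
  | h2 a b ha hb => simp [ha, hb, W.rr_circ]
  | h3 a ha =>
    intro y
    obtain ⟨y, rfl⟩ := (ract S a).unop.surjective y
    rw [ha, map_inv (Wire.hom h), W.rr_inv]
    simp

end mor

end Pool.Agent.P.MP_f0defb_al
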